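import Pool.Agent.Lib.MP_1a91b9_ntQ.C.GoodC4
import Pool.Agent.Lib.MP_1a91b9_ntW.C.LocDefs

/-!
# MP_1a91b9_nt, `ℚ(√-2)`, converse of the descent: the good odd places

At a place where `2` and `d` are units every element with a value which is a square satisfies the local
condition.
-/

set_option autoImplicit false

namespace Pool.Agent.Lib.MP_1a91b9_ntW.C

open WithZero NumberField IsDedekindDomain
open Pool.Agent.Lib.MP_1a91b9_ntH.C (Sq)
open Pool.Agent.Lib.MP_1a91b9_ntS.C (Rs exists_rs rs_surj rs_unique rs_zero_iff rs_sub rs_mul rs_pow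
  rs_one sq_of_rs sq_mul rs_int rs_le rs_neg rs_add)
open Pool.Agent.Lib.MP_1a91b9_ntQ.C (sum_sq_sub_one nonsq_mul Sq_mul_sq)
open scoped Classical

section fin

variable {F : Type*} [Field F] [Fintype F]

theorem sum_quad (h2 : ringChar F ≠ 2) (h1 : IsSquare (-1 : F)) {w d : F} (hw : w ^ 2 = 2)
    (hd : d ≠ 0) : ∑ x : F, quadraticChar F (x ^ 2 + 4 * d * x + 2 * d ^ 2) = -1 := by
  have h20 : (2 : F) ≠ 0 := Ring.two_ne_zero h2
  have hw0 : w ≠ 0 := by
    rintro rfl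
    rw [zero_pow two_ne_zero] at hw
    exact h20 hw.symm
  have hwd : w * d ≠ 0 := mul_ne_zero hw0 hd
  rw [← sum_sq_sub_one h2 h1]
  refine (Fintype.sum_equiv ((Equiv.mulLeft₀ (w * d) hwd).trans (Equiv.subRight (2 * d)))
    _ _ ?_).symm
  intro x
  have e : ((Equiv.mulLeft₀ (w * d) hwd).trans (Equiv.subRight (2 * d))) x = w * d * x - 2 * d :=
    rfl
  have e2 : (w * d * x - 2 * d) ^ 2 + 4 * d * (w * d * x - 2 * d) + 2 * d ^ 2 =
      (w * d) ^ 2 * (x ^ 2 - 1) := by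
    linear_combination (d ^ 2) * hw
  rw [e, e2, map_mul, quadraticChar_sq_one' hwd, one_mul]

/-- two elements which are not squares -/
theorem exists_nonsqS (h2 : ringChar F ≠ 2) (h1 : IsSquare (-1 : F)) {w d : F} (hw : w ^ 2 = 2)
    (hd : d ≠ 0) (hp : IsSquare ((w - 2) * d)) (hm : IsSquare ((-w - 2) * d)) :
    ∃ x : F, ¬ IsSquare x ∧ ¬ IsSquare (x ^ 2 + 4 * d * x + 2 * d ^ 2) := by
  have h20 : (2 : F) ≠ 0 := Ring.two_ne_zero h2
  by_contra hcon
  push Not at hcon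
  have hfac : ∀ x : F, x ^ 2 + 4 * d * x + 2 * d ^ 2 = (x - (w - 2) * d) * (x - (-w - 2) * d) := by
    intro x
    linear_combination (d ^ 2) * hw
  have hz : ∀ x : F, (1 - quadraticChar F x) *
      (1 - quadraticChar F (x ^ 2 + 4 * d * x + 2 * d ^ 2)) ≤ 0 := by
    intro x
    by_cases hx : IsSquare x
    · by_cases hx0 : x = 0
      · subst hx0
        have e : (0 : F) ^ 2 + 4 * d * 0 + 2 * d ^ 2 = (w * d) ^ 2 := by
          rw [mul_pow, hw]
          ring
        have hwd : w * d ≠ 0 := by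
          intro h
          have h3 : (w * d) ^ 2 = 0 := by rw [h, zero_pow two_ne_zero]
          rw [mul_pow, hw] at h3
          exact mul_ne_zero h20 (pow_ne_zero 2 hd) h3
        rw [e, quadraticChar_sq_one' hwd]
        norm_num
      · rw [(quadraticChar_one_iff_isSquare hx0).2 hx]
        norm_num
    · have h5 := hcon x hx
      by_cases h6 : x ^ 2 + 4 * d * x + 2 * d ^ 2 = 0
      · exfalso
        rw [hfac] at h6
        rcases mul_eq_zero.1 h6 with h8 | h8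
        · rw [sub_eq_zero.1 h8] at hx
          exact hx hp
        · rw [sub_eq_zero.1 h8] at hx
          exact hx hm
      · rw [(quadraticChar_one_iff_isSquare h6).2 h5]
        norm_num
  have hsum := Finset.sum_nonpos (s := Finset.univ) (fun x _ => hz x)
  have e : ∀ x : F, (1 - quadraticChar F x) *
      (1 - quadraticChar F (x ^ 2 + 4 * d * x + 2 * d ^ 2)) =
      (1 + quadraticChar F (x * (x ^ 2 + 4 * d * x + 2 * d ^ 2))) - quadraticChar F x -
        quadraticChar F (x ^ 2 + 4 * d * x + 2 * d ^ 2) := by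
    intro x
    rw [map_mul]
    ring
  rw [Finset.sum_congr rfl (fun x _ => e x), Finset.sum_sub_distrib, Finset.sum_sub_distrib,
    quadraticChar_sum_zero h2, sum_quad h2 h1 hw hd] at hsum
  have hpos : ∀ x : F, 0 ≤ 1 + quadraticChar F (x * (x ^ 2 + 4 * d * x + 2 * d ^ 2)) := by
    intro x
    rcases eq_or_ne (x * (x ^ 2 + 4 * d * x + 2 * d ^ 2)) 0 with h | h
    · rw [h, MulChar.map_zero]
      norm_num
    · rcases quadraticChar_dichotomy h with h | h <;> rw [h] <;> norm_num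
  have hp := Finset.sum_nonneg (s := Finset.univ) (fun x _ => hpos x)
  omega

/-- the statement over a finite field -/
theorem finS (h2 : ringChar F ≠ 2) {z d a : F} (hz : z ^ 2 = -2) (hd : d ≠ 0) :
    IsSquare a ∨ IsSquare (-a) ∨ (∃ w : F, w ^ 2 = 2 ∧ IsSquare (a * ((w - 2) * d))) ∨
      ∃ x : F, x ≠ 0 ∧ x ^ 2 + 4 * d * x + 2 * d ^ 2 ≠ 0 ∧
        IsSquare (x * (x ^ 2 + 4 * d * x + 2 * d ^ 2)) ∧ IsSquare (a * x) := by
  have h20 : (2 : F) ≠ 0 := Ring.two_ne_zero h2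
  by_cases ha : IsSquare a
  · exact Or.inl ha
  right
  by_cases hna : IsSquare (-a)
  · exact Or.inl hna
  right
  have ha0 : a ≠ 0 := by
    rintro rfl
    exact ha ⟨0, by ring⟩
  have h1 : IsSquare (-1 : F) := by
    obtain ⟨g, hg⟩ := nonsq_mul h2 ha hna
    refine ⟨g / a, ?_⟩
    field_simp
    linear_combination hg
  obtain ⟨i, hi⟩ := h1
  have hw : (i * z) ^ 2 = 2 := by
    rw [mul_pow, hz, pow_two i, ← hi]
    ring
  obtain ⟨w, hw'⟩ : ∃ w, w = i * z := ⟨_, rfl⟩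
  rw [← hw'] at hw
  have hwm : (-w) ^ 2 = 2 := by
    rw [neg_sq]
    exact hw
  by_cases hp : IsSquare ((w - 2) * d)
  swap
  · exact Or.inl ⟨w, hw, nonsq_mul h2 ha hp⟩
  by_cases hm : IsSquare ((-w - 2) * d)
  swap
  · exact Or.inl ⟨-w, hwm, nonsq_mul h2 ha hm⟩
  right
  obtain ⟨x, hx, hx'⟩ := exists_nonsqS h2 ⟨i, hi⟩ hw hd hp hm
  refine ⟨x, ?_, ?_, nonsq_mul h2 hx hx', nonsq_mul h2 ha hx⟩
  · rintro rfl
    exact hx ⟨0, by ring⟩
  · intro h
    rw [h] at hx'
    exact hx' ⟨0, by ring⟩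

end fin

section

variable {N : Type*} [Field N] [NumberField N] (v : HeightOneSpectrum (𝓞 N))

/-- the local condition for units at the good odd places -/
theorem goodVS_unit {z : N} (hz : z ^ 2 = -2) (h2 : v.valuation N 2 = 1) {d a : N}
    (hD : v.valuation N d = 1) (ha : v.valuation N a = 1) : GLocS (v.valuation N) d a := by
  letI : Field (𝓞 N ⧸ v.asIdeal) := Ideal.Quotient.field v.asIdeal
  haveI : Finite (𝓞 N ⧸ v.asIdeal) := Ideal.finiteQuotientOfFreeOfNeBot _ v.ne_bot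
  letI : Fintype (𝓞 N ⧸ v.asIdeal) := Fintype.ofFinite _
  have h4 : v.valuation N 4 = 1 := by
    have e : (4 : N) = 2 * 2 := by norm_num
    rw [e, map_mul, h2, one_mul]
  have h16 : v.valuation N 16 = 1 := by
    have e : (16 : N) = 4 * 4 := by norm_num
    rw [e, map_mul, h4, one_mul]
  have hvi : v.valuation N z = 1 := by
    have h5 := congrArg (v.valuation N) hz
    rw [map_pow, Valuation.map_neg, h2] at h5
    exact (pow_eq_one_iff_of_nonneg zero_le two_ne_zero).1 h5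
  have r2 : Rs v (2 : N) (2 : 𝓞 N ⧸ v.asIdeal) := by
    have := rs_int v (2 : 𝓞 N)
    rwa [map_ofNat, map_ofNat] at this
  have r4 : Rs v (4 : N) (4 : 𝓞 N ⧸ v.asIdeal) := by
    have := rs_int v (4 : 𝓞 N)
    rwa [map_ofNat, map_ofNat] at this
  have hr2 : (2 : 𝓞 N ⧸ v.asIdeal) ≠ 0 := (rs_zero_iff v r2).1 h2
  have hrc : ringChar (𝓞 N ⧸ v.asIdeal) ≠ 2 := by
    intro h
    apply hr2
    have := ringChar.Nat.cast_ringChar (R := 𝓞 N ⧸ v.asIdeal)
    rw [h] at this
    exact_mod_cast this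
  obtain ⟨rz, hrz⟩ := exists_rs v hvi.le
  obtain ⟨rD, hrD⟩ := exists_rs v hD.le
  obtain ⟨ra, hra⟩ := exists_rs v ha.le
  have hrD0 := (rs_zero_iff v hrD).1 hD
  have hra0 := (rs_zero_iff v hra).1 ha
  have h1 : rz ^ 2 = -2 := by
    have h5 := rs_pow v hrz 2
    rw [hz] at h5
    exact rs_unique v h5 (rs_neg v r2)
  rcases finS hrc (a := ra) h1 hrD0 with h | h | ⟨w, hw, h⟩ | ⟨x, hx0, hxD, hxs, h⟩
  · exact Or.inl (sq_of_rs v h4 hra hra0 h)
  · exact Or.inr (Or.inl (sq_of_rs v h4 (rs_neg v hra) (neg_ne_zero.2 hra0) h))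
  · obtain ⟨X, hX⟩ := rs_surj v w
    have hw2 : w - 2 ≠ 0 := by
      intro h5
      rw [sub_eq_zero.1 h5] at hw
      apply hr2
      linear_combination hw
    have hX1 : v.valuation N (X - 2) = 1 := (rs_zero_iff v (rs_sub v hX r2)).2 hw2
    have hX0 : X - 2 ≠ 0 := by
      intro h5
      rw [h5, map_zero] at hX1
      exact zero_ne_one hX1
    refine Or.inr (Or.inr (Or.inl ⟨X, hX0, ?_, sq_of_rs v h4
      (rs_mul v hra (rs_mul v (rs_sub v hX r2) hrD))
      (mul_ne_zero hra0 (mul_ne_zero hw2 hrD0)) h⟩))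
    have h5 := rs_sub v (rs_pow v hX 2) r2
    have h6 : ¬ v.valuation N (X ^ 2 - 2) = 1 := by
      rw [rs_zero_iff v h5, hw, sub_self]
      exact fun h => h rfl
    have h7 : v.valuation N (X ^ 2 - 2) < 1 := lt_of_le_of_ne (rs_le v h5) h6
    have e : X ^ 2 / 2 - 1 = (X ^ 2 - 2) / 2 := by ring
    rw [e, map_div₀, h2, div_one, h16]
    exact h7
  · obtain ⟨X, hX⟩ := rs_surj v x
    have hX1 : v.valuation N X = 1 := (rs_zero_iff v hX).2 hx0
    have hX0 : X ≠ 0 := by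
      rintro rfl
      rw [map_zero] at hX1
      exact zero_ne_one hX1
    refine Or.inr (Or.inr (Or.inr ⟨X, hX0, ?_, sq_of_rs v h4 (rs_mul v hra hX)
      (mul_ne_zero hra0 hx0) h⟩))
    exact sq_of_rs v h4 (rs_mul v hX (rs_add v (rs_add v (rs_pow v hX 2)
      (rs_mul v (rs_mul v r4 hrD) hX)) (rs_mul v r2 (rs_pow v hrD 2)))) (mul_ne_zero hx0 hxD) hxs

end

section

variable {L : Type*} [Field L] [CharZero L] {ν : Valuation L ℤᵐ⁰}

/-- the local condition depends on the class modulo squares only -/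
theorem GLocS.mul_sq {d a b : L} (hb : b ≠ 0) (h : GLocS ν d a) : GLocS ν d (a * b ^ 2) := by
  rcases h with h | h | ⟨x, hx0, hx, h⟩ | ⟨x, hx0, hx, h⟩
  · exact Or.inl (Sq_mul_sq hb h)
  · refine Or.inr (Or.inl ?_)
    have e : -(a * b ^ 2) = -a * b ^ 2 := by ring
    rw [e]
    exact Sq_mul_sq hb h
  · refine Or.inr (Or.inr (Or.inl ⟨x, hx0, hx, ?_⟩))
    have e : a * b ^ 2 * ((x - 2) * d) = a * ((x - 2) * d) * b ^ 2 := by ring
    rw [e]
    exact Sq_mul_sq hb h
  · refine Or.inr (Or.inr (Or.inr ⟨x, hx0, hx, ?_⟩))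
    have e : a * b ^ 2 * x = a * x * b ^ 2 := by ring
    rw [e]
    exact Sq_mul_sq hb h

theorem GLocS.of_mul_sq {d a b : L} (hb : b ≠ 0) (h : GLocS ν d (a * b ^ 2)) : GLocS ν d a := by
  have h1 := h.mul_sq (inv_ne_zero hb)
  have e : a * b ^ 2 * b⁻¹ ^ 2 = a := by
    field_simp
  rwa [e] at h1

end

/-- **The local condition at the good odd places.** -/
theorem goodVS {N : Type*} [Field N] [NumberField N] (v : HeightOneSpectrum (𝓞 N)) {z : N}
    (hz : z ^ 2 = -2) (h2 : v.valuation N 2 = 1) {d a : N} (hd : v.valuation N d = 1)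
    (ha0 : a ≠ 0) (ha : IsSquare (v.valuation N a)) : GLocS (v.valuation N) d a := by
  obtain ⟨g, hg⟩ := ha
  obtain ⟨b, hb⟩ := v.valuation_surjective N g
  have hb0 : b ≠ 0 := by
    rintro rfl
    rw [map_zero] at hb
    rw [← hb, mul_zero] at hg
    exact ha0 ((Valuation.zero_iff _).1 hg)
  refine GLocS.of_mul_sq (b := b⁻¹) (inv_ne_zero hb0) (goodVS_unit v hz h2 hd ?_)
  rw [map_mul, map_pow, map_inv₀, hb, hg]
  have hg0 : g ≠ 0 := by
    rw [← hb]
    exact (Valuation.ne_zero_iff _).2 hb0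
  field_simp

end Pool.Agent.Lib.MP_1a91b9_ntW.C
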