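import Pool.Agent.Lib.MP_1a91b9_ntW.C.LamW

/-!
# MP_1a91b9_nt, `ℚ(√-2)`, converse of the descent: the place `lam`

`d = (-1)^k lam^(1-j) D`. In the cases `j = 0` or `aa D = 1` the classes of the normalised elements
with `aa = 0` are in the local image (abscissas `5` and `3`); in the case `j = 1`, `aa D = 0`
the classes `lam^v y` with `ll y = (k + ll D) v` are (abscissas `d X` with `X = lam`, `3 lam`,
`4 + lam`, `-8 + 5 lam`).
-/

set_option autoImplicit false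
set_option linter.unusedSectionVars false
set_option linter.unusedVariables false

namespace Pool.Agent.Lib.MP_1a91b9_ntW.C

open NumberField Finset WithZero IsDedekindDomain
open Pool.Agent.Lib.MP_1a91b9_ntW
open Pool.Agent.Lib.MP_1a91b9_ntH.C (Sq exists_nu isSquare_exp nu_one)
open Pool.Agent.Lib.MP_1a91b9_ntV.C (pv pv_self pv_one pv_lt pv_le_pow coe_ne)

noncomputable section

/-- translation by the point `(0, 0)` -/
theorem neg_pt {L : Type*} [Field L] {ν : Valuation L ℤᵐ⁰} {z d a : L} (hz : z ^ 2 = -2)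
    (hz0 : z ≠ 0) (h20 : (2 : L) ≠ 0) (hd : d ≠ 0)
    (h : ∃ x : L, x ≠ 0 ∧ Sq ν (x * (x ^ 2 + 4 * d * x + 2 * d ^ 2)) ∧ Sq ν (a * x)) :
    ∃ x : L, x ≠ 0 ∧ Sq ν (x * (x ^ 2 + 4 * d * x + 2 * d ^ 2)) ∧ Sq ν (-a * x) := by
  obtain ⟨x, hx, h1, h2⟩ := h
  have hmul : ∀ u m : L, m ≠ 0 → Sq ν u → Sq ν (m ^ 2 * u) := by
    rintro u m hm ⟨b, hb, h⟩
    refine ⟨m * b, mul_ne_zero hm hb, ?_⟩
    have e : m ^ 2 * u / (m * b) ^ 2 - 1 = u / b ^ 2 - 1 := by
      field_simp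
    rwa [e]
  refine ⟨2 * d ^ 2 / x, div_ne_zero (mul_ne_zero h20 (pow_ne_zero 2 hd)) hx, ?_, ?_⟩
  · have e : 2 * d ^ 2 / x * ((2 * d ^ 2 / x) ^ 2 + 4 * d * (2 * d ^ 2 / x) + 2 * d ^ 2) =
        (2 * d ^ 2 / x ^ 2) ^ 2 * (x * (x ^ 2 + 4 * d * x + 2 * d ^ 2)) := by
      field_simp
      ring
    rw [e]
    exact hmul _ _ (div_ne_zero (mul_ne_zero h20 (pow_ne_zero 2 hd)) (pow_ne_zero 2 hx)) h1
  · have e : -a * (2 * d ^ 2 / x) = (z * d / x) ^ 2 * (a * x) := by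
      field_simp
      linear_combination (-a) * hz
    rw [e]
    exact hmul _ _ (div_ne_zero (mul_ne_zero hz0 hd) hx) h2

theorem cmul (x y : 𝓞 K8) : ((x * y : 𝓞 K8) : K8) = (x : K8) * (y : K8) := by
  push_cast
  rfl

theorem cadd (x y : 𝓞 K8) : ((x + y : 𝓞 K8) : K8) = (x : K8) + (y : K8) := by
  push_cast
  rfl

theorem csub (x y : 𝓞 K8) : ((x - y : 𝓞 K8) : K8) = (x : K8) - (y : K8) := by
  push_cast
  rfl

theorem cneg (x : 𝓞 K8) : ((-x : 𝓞 K8) : K8) = -(x : K8) := by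
  push_cast
  rfl

theorem cpow (x : 𝓞 K8) (n : ℕ) : ((x ^ n : 𝓞 K8) : K8) = (x : K8) ^ n := by
  push_cast
  rfl

theorem cone : ((1 : 𝓞 K8) : K8) = 1 := by
  push_cast
  rfl

theorem cofNat (n : ℕ) [n.AtLeastTwo] :
    ((ofNat(n) : 𝓞 K8) : K8) = (ofNat(n) : K8) := map_ofNat (algebraMap (𝓞 K8) K8) n

theorem z8_ne : z8 ≠ 0 := z_ne z8_sq nuL_z

theorem two8_ne : (2 : K8) ≠ 0 := two_ne_zero

/-- A congruence modulo `lam ^ 5 = 4 lam` gives a local square. -/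
theorem Sq_of_dvd {x y : 𝓞 K8} (hy : ¬ lam ∣ y) (h : 4 * lam ∣ x - y ^ 2) :
    Sq nuL (x : K8) := by
  have hy0 : y ≠ 0 := by
    rintro rfl
    exact hy (dvd_zero _)
  have h1 : Sq nuL ((y ^ 2 : 𝓞 K8) : K8) := by
    rw [cpow]
    refine Sq.of_isSquare ⟨(y : K8), by rw [pow_two]⟩ (pow_ne_zero 2 (coe_ne hy0))
  refine Sq.congr2 h1 ?_ ?_
  · rw [cpow, map_pow, nuL_odd hy, one_pow]
  · rw [← csub]
    refine (nuL_le_pow 5).2 ?_
    rw [lam_pow5]
    exact h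

/-- The converse of `sq_odd`. -/
theorem sq_of_odd {c : 𝓞 K8} (hP : Pr c) (ha : aa c = 0) (hl : ll c = 0) : Sq nuL (c : K8) := by
  have h1 := Pr_iff.1 hP
  have h2 : (2 : ℤ) ∣ (cp c).2 := by
    rw [aa_cp, ZMod.intCast_zmod_eq_zero_iff_dvd] at ha
    exact_mod_cast ha
  rw [ll, cz_fst_congr, cz_snd_congr] at hl
  obtain ⟨a, hA⟩ : ∃ a, a = (cp c).1 := ⟨_, rfl⟩
  obtain ⟨b, hB⟩ : ∃ b, b = (cp c).2 := ⟨_, rfl⟩
  rw [← hA, ← hB] at h1 hl
  rw [← hB] at h2
  have h3 : (a % 8 = 1 ∧ b % 4 = 0) ∨ (a % 8 = 7 ∧ b % 4 = 2) := by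
    have h4 : (b % 8 = 0 ∨ b % 8 = 2 ∨ b % 8 = 4 ∨ b % 8 = 6) := by omega
    have h5 : (a % 8 = 1 ∨ a % 8 = 3 ∨ a % 8 = 5 ∨ a % 8 = 7) := by omega
    rcases h4 with h4 | h4 | h4 | h4 <;> rcases h5 with h5 | h5 | h5 | h5 <;>
      first
        | (exfalso; rw [h4, h5] at hl; revert hl; decide)
        | (exfalso; omega)
        | (left; constructor <;> omega)
        | (right; constructor <;> omega)
  rcases h3 with ⟨h4, h5⟩ | ⟨h4, h5⟩
  · refine Sq_of_dvd (y := 1) Pr.one.odd ?_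
    rw [lam5_dvd_iff, cp_sub, one_pow, cp_one, Prod.fst_sub, Prod.snd_sub, ← hA, ← hB]
    constructor
    · dsimp only
      omega
    · dsimp only
      omega
  · have e : (1 + lam) ^ 2 = ((-1 : ℤ) : 𝓞 K8) + ((2 : ℤ) : 𝓞 K8) * lam := by
      push_cast
      linear_combination lam_sq
    refine Sq_of_dvd (y := 1 + lam) ?_ ?_
    · intro h
      have h6 := dvd_sub h (dvd_refl lam)
      rw [add_sub_cancel_right] at h6
      exact lam_not_unit (isUnit_of_dvd_one h6)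
    · rw [lam5_dvd_iff, cp_sub, e, cp_coords, Prod.fst_sub, Prod.snd_sub, ← hA, ← hB]
      constructor
      · dsimp only
        omega
      · dsimp only
        omega

/-- the residues of an element given by its coordinates -/
theorem coord_bits {a b : ℤ} {x : 𝓞 K8} (hx : x = (a : 𝓞 K8) + (b : 𝓞 K8) * lam) :
    (Pr x ↔ prz (a : ZMod 8) (b : ZMod 8) = true) ∧ aa x = az (b : ZMod 8) ∧
      ll x = lz (a : ZMod 8) (b : ZMod 8) := by
  have h : cz x = ((a : ZMod 8), (b : ZMod 8)) := by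
    rw [cz, hx, cp_coords]
  refine ⟨?_, ?_, ?_⟩
  · rw [Pr, h]
  · rw [aa, h]
  · rw [ll, h]

/-- the bits of the constants -/
theorem bits_const {a b : ℤ} {x : 𝓞 K8} (hx : x = (a : 𝓞 K8) + (b : 𝓞 K8) * lam) {l : ZMod 2}
    (h1 : prz (a : ZMod 8) (b : ZMod 8) = true) (h2 : az (b : ZMod 8) = 0)
    (h3 : lz (a : ZMod 8) (b : ZMod 8) = l) : Pr x ∧ aa x = 0 ∧ ll x = l := by
  obtain ⟨g1, g2, g3⟩ := coord_bits hx
  exact ⟨g1.2 h1, by rw [g2, h2], by rw [g3, h3]⟩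

theorem bits_mul {x y : 𝓞 K8} {l m : ZMod 2} (hx : Pr x ∧ aa x = 0 ∧ ll x = l)
    (hy : Pr y ∧ aa y = 0 ∧ ll y = m) : Pr (x * y) ∧ aa (x * y) = 0 ∧ ll (x * y) = l + m :=
  ⟨hx.1.mul hy.1, by rw [aa_mul hx.1 hy.1, hx.2.1, hy.2.1, add_zero],
    by rw [ll_mul hx.1 hy.1, hx.2.2, hy.2.2]⟩

theorem sq_bits {x : 𝓞 K8} {l : ZMod 2} (hx : Pr x ∧ aa x = 0 ∧ ll x = l) (hl : l = 0) :
    Sq nuL (x : K8) := sq_of_odd hx.1 hx.2.1 (hx.2.2.trans hl)

theorem Sq_mul_left {u m : K8} (hm : m ≠ 0) (h : Sq nuL u) : Sq nuL (m ^ 2 * u) := by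
  obtain ⟨b, hb, h⟩ := h
  refine ⟨m * b, mul_ne_zero hm hb, ?_⟩
  have e : m ^ 2 * u / (m * b) ^ 2 - 1 = u / b ^ 2 - 1 := by
    field_simp
  rwa [e]

/-! ### `d = (-1)^k D`, `aa D = 0` -/

/-- the point with abscissa `d X`, `X = lam u` -/
theorem pt_lam {d y u c : 𝓞 K8} (hd : d ≠ 0) (hu : u ≠ 0)
    (hc : lam * u * ((lam * u) ^ 2 + 4 * (lam * u) + 2) = 4 * lam ^ 2 * c)
    (h1 : Sq nuL ((d * c : 𝓞 K8) : K8)) (h2 : Sq nuL ((y * (d * u) : 𝓞 K8) : K8)) :
    ∃ x : K8, x ≠ 0 ∧ Sq nuL (x * (x ^ 2 + 4 * (d : K8) * x + 2 * (d : K8) ^ 2)) ∧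
      Sq nuL (((lam * y : 𝓞 K8) : K8) * x) := by
  have hdK := coe_ne hd
  have hlK : ((lam : 𝓞 K8) : K8) ≠ 0 := z8_ne
  refine ⟨((d * (lam * u) : 𝓞 K8) : K8),
    coe_ne (mul_ne_zero hd (mul_ne_zero lam_ne_zero hu)), ?_, ?_⟩
  · have e : ((d * (lam * u) : 𝓞 K8) : K8) * (((d * (lam * u) : 𝓞 K8) : K8) ^ 2 +
        4 * (d : K8) * ((d * (lam * u) : 𝓞 K8) : K8) + 2 * (d : K8) ^ 2) =
        (2 * (lam : K8) * (d : K8)) ^ 2 * ((d * c : 𝓞 K8) : K8) := by
      have h3 := congrArg (fun t : 𝓞 K8 => (t : K8)) hc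
      simp only [cmul, cadd, cpow, cofNat] at h3
      rw [cmul, cmul, cmul]
      linear_combination (d : K8) ^ 3 * h3
    rw [e]
    exact Sq_mul_left (mul_ne_zero (mul_ne_zero two8_ne hlK) hdK) h1
  · have e : ((lam * y : 𝓞 K8) : K8) * ((d * (lam * u) : 𝓞 K8) : K8) =
        (lam : K8) ^ 2 * ((y * (d * u) : 𝓞 K8) : K8) := by
      rw [cmul, cmul, cmul, cmul, cmul]
      ring
    rw [e]
    exact Sq_mul_left hlK h2

/-- the row of `lam`, converse -/
theorem lam_row' {k v : ZMod 2} {D y : 𝓞 K8} (hD : Pr D) (hD0 : aa D = 0) (hy : Pr y)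
    (hy0 : aa y = 0) (h : ll y = (k + ll D) * v) :
    GLocS nuL (((-1) ^ k.val * D : 𝓞 K8) : K8) ((lam ^ v.val * y : 𝓞 K8) : K8) := by
  have h01 : ∀ v : ZMod 2, v = 0 ∨ v = 1 := by decide
  have h1v : ((1 : ZMod 2)).val = 1 := rfl
  have hDne : D ≠ 0 := fun h0 => hD.odd (h0 ▸ dvd_zero _)
  rcases h01 v with rfl | rfl
  · rw [mul_zero] at h
    left
    rw [ZMod.val_zero, pow_zero, one_mul]
    exact sq_of_odd hy hy0 h
  rw [mul_one] at h
  rw [h1v, pow_one]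
  have bD : ∀ {l : ZMod 2}, ll D = l → Pr D ∧ aa D = 0 ∧ ll D = l := fun h => ⟨hD, hD0, h⟩
  have by' : ∀ {l : ZMod 2}, ll y = l → Pr y ∧ aa y = 0 ∧ ll y = l := fun h => ⟨hy, hy0, h⟩
  right; right; right
  rcases h01 k with rfl | rfl
  · rw [zero_add] at h
    rw [ZMod.val_zero, pow_zero, one_mul]
    rcases h01 (ll D) with hl | hl
    · -- `X = lam`
      rw [hl] at h
      have bD := bD hl
      have by' := by' h
      refine pt_lam (u := 1) (c := 1) hDne one_ne_zero ?_ ?_ ?_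
      · linear_combination lam * lam_sq
      · rw [mul_one]
        exact sq_bits bD rfl
      · rw [mul_one]
        exact sq_bits (bits_mul by' bD) (by decide)
    · -- `X = lam (1 - 2 lam)`
      rw [hl] at h
      have bD := bD hl
      have by' := by' h
      have e := neg_pt (a := ((lam * (-y) : 𝓞 K8) : K8)) z8_sq z8_ne two8_ne (coe_ne hDne)
        (pt_lam (u := 1 - 2 * lam) (c := -13 - 10 * lam) (y := -y) hDne ?_ ?_ ?_ ?_)
      · have e1 : -((lam * (-y) : 𝓞 K8) : K8) = ((lam * y : 𝓞 K8) : K8) := by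
          rw [cmul, cmul, cneg]
          ring
        rwa [e1] at e
      · intro h0
        have h3 : ((1 : ℤ) : 𝓞 K8) + ((-2 : ℤ) : 𝓞 K8) * lam =
            ((0 : ℤ) : 𝓞 K8) + ((0 : ℤ) : 𝓞 K8) * lam := by
          push_cast
          linear_combination h0
        have h4 := (coords_inj h3).1
        norm_num at h4
      · linear_combination (lam + 26 * lam ^ 2 + 12 * lam ^ 3 - 8 * lam ^ 4) * lam_sq
      · refine sq_bits (bits_mul bD (bits_const (a := -13) (b := -10) ?_ (l := 1) ?_ ?_ ?_)) (by decide)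
        · push_cast
          ring
        · decide
        · decide
        · decide
      · have e1 : -y * (D * (1 - 2 * lam)) = y * D * (-1 + 2 * lam) := by ring
        rw [e1]
        refine sq_bits (bits_mul (bits_mul by' bD)
          (bits_const (a := -1) (b := 2) ?_ (l := 0) ?_ ?_ ?_)) (by decide)
        · push_cast
          ring
        · decide
        · decide
        · decide
  · rw [h1v, pow_one]
    have hnD : -1 * D ≠ 0 := mul_ne_zero (neg_ne_zero.2 one_ne_zero) hDne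
    rcases h01 (ll D) with hl | hl
    · -- `X = 3 lam`
      rw [hl] at h
      have bD := bD hl
      have by' := by' h
      refine pt_lam (u := 3) (c := 9 + 6 * lam) hnD (by norm_num) ?_ ?_ ?_
      · linear_combination (3 * lam) * lam_sq
      · have e1 : -1 * D * (9 + 6 * lam) = D * (-9 - 6 * lam) := by ring
        rw [e1]
        refine sq_bits (bits_mul bD (bits_const (a := -9) (b := -6) ?_ (l := 0) ?_ ?_ ?_)) (by decide)
        · push_cast
          ring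
        · decide
        · decide
        · decide
      · have e1 : y * (-1 * D * 3) = y * D * (-3) := by ring
        rw [e1]
        refine sq_bits (bits_mul (bits_mul by' bD)
          (bits_const (a := -3) (b := 0) ?_ (l := 1) ?_ ?_ ?_)) (by decide)
        · push_cast
          ring
        · decide
        · decide
        · decide
    · -- `X = lam (5 + 4 lam)`
      rw [hl] at h
      have bD := bD hl
      have by' := by' h
      have e := neg_pt (a := ((lam * (-y) : 𝓞 K8) : K8)) z8_sq z8_ne two8_ne (coe_ne hnD)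
        (pt_lam (u := 5 + 4 * lam) (c := -91 - 50 * lam) (y := -y) hnD ?_ ?_ ?_ ?_)
      · have e1 : -((lam * (-y) : 𝓞 K8) : K8) = ((lam * y : 𝓞 K8) : K8) := by
          rw [cmul, cmul, cneg]
          ring
        rwa [e1] at e
      · intro h0
        have h3 : ((5 : ℤ) : 𝓞 K8) + ((4 : ℤ) : 𝓞 K8) * lam =
            ((0 : ℤ) : 𝓞 K8) + ((0 : ℤ) : 𝓞 K8) * lam := by
          push_cast
          linear_combination h0
        have h4 := (coords_inj h3).1
        norm_num at h4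
      · linear_combination (5 * lam + 236 * lam ^ 2 + 240 * lam ^ 3 + 64 * lam ^ 4) * lam_sq
      · have e1 : -1 * D * (-91 - 50 * lam) = D * (91 + 50 * lam) := by ring
        rw [e1]
        refine sq_bits (bits_mul bD (bits_const (a := 91) (b := 50) ?_ (l := 1) ?_ ?_ ?_)) (by decide)
        · push_cast
          ring
        · decide
        · decide
        · decide
      · have e1 : -y * (-1 * D * (5 + 4 * lam)) = y * D * (5 + 4 * lam) := by ring
        rw [e1]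
        refine sq_bits (bits_mul (bits_mul by' bD)
          (bits_const (a := 5) (b := 4) ?_ (l := 1) ?_ ?_ ?_)) (by decide)
        · push_cast
          ring
        · decide
        · decide
        · decide

/-! ### the other cases -/

/-- `lam ∣ d`: the point with abscissa `5` -/
theorem pt5 {e y : 𝓞 K8} (he : ¬ lam ∣ e) (hy : Pr y) (hy0 : aa y = 0) :
    GLocS nuL ((lam * e : 𝓞 K8) : K8) (y : K8) := by
  have h01 : ∀ v : ZMod 2, v = 0 ∨ v = 1 := by decide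
  rcases h01 (ll y) with hl | hl
  · exact Or.inl (sq_of_odd hy hy0 hl)
  right; right; right
  refine ⟨5, by norm_num, ?_, ?_⟩
  · have e1 : (5 : K8) * (5 ^ 2 + 4 * ((lam * e : 𝓞 K8) : K8) * 5 + 2 * ((lam * e : 𝓞 K8) : K8) ^ 2) =
        ((125 + 100 * (lam * e) - 20 * e ^ 2 : 𝓞 K8) : K8) := by
      have e2 : (125 + 100 * (lam * e) - 20 * e ^ 2 : 𝓞 K8) =
          5 * (5 ^ 2 + 4 * (lam * e) * 5 + 2 * (lam * e) ^ 2) := by
        linear_combination (-10 * e ^ 2) * lam_sq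
      rw [e2]
      simp only [cmul, cadd, cpow, cofNat]
    rw [e1]
    refine Sq_of_dvd (y := 1) Pr.one.odd ?_
    have h2 := eq_cp e
    have h3 : (cp e).1 % 2 = 1 := by
      rw [lam_dvd_iff] at he
      omega
    obtain ⟨a, hA⟩ : ∃ a, a = (cp e).1 := ⟨_, rfl⟩
    obtain ⟨b, hB⟩ : ∃ b, b = (cp e).2 := ⟨_, rfl⟩
    rw [← hA, ← hB] at h2
    rw [← hA] at h3
    have e3 : (125 + 100 * (lam * e) - 20 * e ^ 2 - 1 ^ 2 : 𝓞 K8) =
        ((124 - 200 * b - 20 * a ^ 2 + 40 * b ^ 2 : ℤ) : 𝓞 K8) +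
          ((100 * a - 40 * (a * b) : ℤ) : 𝓞 K8) * lam := by
      rw [h2]
      push_cast
      linear_combination (100 * (b : 𝓞 K8) - 20 * (b : 𝓞 K8) ^ 2) * lam_sq
    rw [e3, lam5_dvd_iff, cp_coords]
    obtain ⟨c, hc⟩ : ∃ c, a = 2 * c + 1 := ⟨a / 2, by omega⟩
    constructor
    · refine ⟨13 - 25 * b - 10 * c ^ 2 - 10 * c + 5 * b ^ 2, ?_⟩
      dsimp only
      rw [hc]
      ring
    · refine ⟨25 * a - 10 * (a * b), ?_⟩
      dsimp only
      ring
  · have e1 : (y : K8) * 5 = ((y * 5 : 𝓞 K8) : K8) := by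
      rw [cmul, cofNat]
    rw [e1]
    refine sq_bits (bits_mul ⟨hy, hy0, hl⟩ (bits_const (a := 5) (b := 0) ?_ (l := 1) ?_ ?_ ?_)) (by decide)
    · push_cast
      ring
    · decide
    · decide
    · decide

/-- `d` odd, `aa d = 1`: the point with abscissa `3` -/
theorem pt3 {d y : 𝓞 K8} (hd : ¬ lam ∣ d) (hd1 : aa d = 1) (hy : Pr y) (hy0 : aa y = 0) :
    GLocS nuL (d : K8) (y : K8) := by
  have h01 : ∀ v : ZMod 2, v = 0 ∨ v = 1 := by decide
  rcases h01 (ll y) with hl | hl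
  · exact Or.inl (sq_of_odd hy hy0 hl)
  right; right; right
  have hd0 : d ≠ 0 := fun h0 => hd (h0 ▸ dvd_zero _)
  have h := neg_pt (ν := nuL) (a := ((-y : 𝓞 K8) : K8)) z8_sq z8_ne two8_ne (coe_ne hd0)
    ⟨3, by norm_num, ?_, ?_⟩
  · have e1 : -((-y : 𝓞 K8) : K8) = (y : K8) := by
      rw [cneg, neg_neg]
    rwa [e1] at h
  · have e1 : (3 : K8) * (3 ^ 2 + 4 * (d : K8) * 3 + 2 * (d : K8) ^ 2) =
        ((27 + 36 * d + 6 * d ^ 2 : 𝓞 K8) : K8) := by
      have e2 : (27 + 36 * d + 6 * d ^ 2 : 𝓞 K8) = 3 * (3 ^ 2 + 4 * d * 3 + 2 * d ^ 2) := by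
        ring
      rw [e2]
      simp only [cmul, cadd, cpow, cofNat]
    rw [e1]
    refine Sq_of_dvd (y := 5) ?_ ?_
    · rw [lam_dvd_iff]
      have e5 : (5 : 𝓞 K8) = ((5 : ℤ) : 𝓞 K8) := by push_cast; rfl
      rw [e5, cp_intCast]
      norm_num
    have h2 := eq_cp d
    have h3 : (cp d).1 % 2 = 1 := by
      rw [lam_dvd_iff] at hd
      omega
    have h4 : (cp d).2 % 2 = 1 := by
      by_contra h5
      have h6 : (2 : ℤ) ∣ (cp d).2 := by omega
      rw [aa_cp] at hd1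
      have h11 : (((cp d).2 : ℤ) : ZMod 2) = 0 :=
        (ZMod.intCast_zmod_eq_zero_iff_dvd _ _).2 (by exact_mod_cast h6)
      rw [h11] at hd1
      exact zero_ne_one hd1
    obtain ⟨a, hA⟩ : ∃ a, a = (cp d).1 := ⟨_, rfl⟩
    obtain ⟨b, hB⟩ : ∃ b, b = (cp d).2 := ⟨_, rfl⟩
    rw [← hA, ← hB] at h2
    rw [← hA] at h3
    rw [← hB] at h4
    have e3 : (27 + 36 * d + 6 * d ^ 2 - 5 ^ 2 : 𝓞 K8) =
        ((2 + 36 * a + 6 * a ^ 2 - 12 * b ^ 2 : ℤ) : 𝓞 K8) +
          ((36 * b + 12 * (a * b) : ℤ) : 𝓞 K8) * lam := by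
      rw [h2]
      push_cast
      linear_combination (6 * (b : 𝓞 K8) ^ 2) * lam_sq
    rw [e3, lam5_dvd_iff, cp_coords]
    obtain ⟨c, hc⟩ : ∃ c, a = 2 * c + 1 := ⟨a / 2, by omega⟩
    obtain ⟨e, he⟩ : ∃ e, b = 2 * e + 1 := ⟨b / 2, by omega⟩
    constructor
    · refine ⟨4 + 12 * c + 3 * c ^ 2 - 6 * e ^ 2 - 6 * e, ?_⟩
      dsimp only
      rw [hc, he]
      ring
    · refine ⟨9 * b + 3 * (a * b), ?_⟩
      dsimp only
      ring
  · have e1 : ((-y : 𝓞 K8) : K8) * 3 = ((y * (-3) : 𝓞 K8) : K8) := by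
      rw [cmul, cneg, cneg, cofNat]
      ring
    rw [e1]
    refine sq_bits (bits_mul ⟨hy, hy0, hl⟩ (bits_const (a := -3) (b := 0) ?_ (l := 1) ?_ ?_ ?_)) (by decide)
    · push_cast
      ring
    · decide
    · decide
    · decide

/-- the other cases, converse -/
theorem lam_even' {k j : ZMod 2} {D y : 𝓞 K8} (hD : Pr D) (hj : j = 0 ∨ aa D = 1) (hy : Pr y)
    (hy0 : aa y = 0) :
    GLocS nuL (((-1) ^ k.val * lam ^ (1 - j.val) * D : 𝓞 K8) : K8) (y : K8) := by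
  have h01 : ∀ v : ZMod 2, v = 0 ∨ v = 1 := by decide
  have h1v : ((1 : ZMod 2)).val = 1 := rfl
  have hneg : (-1 : 𝓞 K8) ^ k.val = 1 ∨ (-1 : 𝓞 K8) ^ k.val = -1 := neg_one_pow_eq_or _ _
  have hodd : ¬ lam ∣ (-1) ^ k.val * D := by
    rcases hneg with h5 | h5
    · rw [h5, one_mul]
      exact hD.odd
    · rw [h5, neg_one_mul]
      exact neg_odd hD.odd
  rcases h01 j with rfl | rfl
  · have e : ((-1) ^ k.val * lam ^ (1 - (0 : ZMod 2).val) * D : 𝓞 K8) =
        lam * ((-1) ^ k.val * D) := by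
      rw [ZMod.val_zero]
      ring
    rw [e]
    exact pt5 hodd hy hy0
  · have hA : aa D = 1 := by
      rcases hj with h1 | h1
      · exact absurd h1 (by decide)
      · exact h1
    have e : ((-1) ^ k.val * lam ^ (1 - (1 : ZMod 2).val) * D : 𝓞 K8) = (-1) ^ k.val * D := by
      rw [h1v]
      norm_num
    rw [e]
    refine pt3 hodd ?_ hy hy0
    rcases hneg with h5 | h5
    · rw [h5, one_mul]
      exact hA
    · rw [h5, neg_one_mul, aa_neg]
      exact hA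

end

end Pool.Agent.Lib.MP_1a91b9_ntW.C
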