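import Pool.Agent.Lib.MP_1a91b9_ntW.CV.ConvS
import Pool.Agent.Lib.MP_1a91b9_ntW.CV.Good
import Pool.Agent.Lib.MP_1a91b9_ntW.CV.LamC
import Pool.Agent.Lib.MP_1a91b9_ntW.C.TorsW

/-!
# MP_1a91b9_nt, `ℚ(√-2)`: the converse of the descent

If the curve `y² = x³ + 4 d x² + 2 d² x`, `d = dW k j S`, has finitely many points over `ℚ(√-2)` and
the 2-primary part of its Tate-Shafarevich group is trivial, then `GW k j S` is not zero.
-/

set_option autoImplicit false
set_option linter.unusedSectionVars false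
set_option linter.unusedVariables false

namespace Pool.Agent.Lib.MP_1a91b9_ntW.C

open WeierstrassCurve NumberField Finset WithZero IsDedekindDomain Matrix
open Pool.Agent.Lib.MP_1a91b9_ntW
open Pool.Agent.Lib.MP_1a91b9_ntE (MM BB)
open Pool.Agent.Lib.MP_1a91b9_ntH.C (Sq exists_nu isSquare_exp nu_one)
open Pool.Agent.Lib.MP_1a91b9_ntV.C (pv pv_self pv_one pv_lt pv_le_pow pv_eq exists_pv coe_ne ls
  gpr gpr_erase not_dvd_gpr ls_gpr sq_iff_ls ls_mul)
open Pool.Agent.Lib.MP_1a91b9_ntT3.S9 (ShaP)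

noncomputable section

/-! ### the primes which divide `d` -/

theorem sq_of_cc (q : Pg) {x : 𝓞 K8} (hx : ¬ q.1 ∣ x) (h : cc q x = 0) :
    Sq (nuq q) (x : K8) := by
  rw [← ls_cc] at h
  exact (sq_iff_ls (N := K8) q.2.1 (not_dvd_two q) hx).2 h

theorem Sq_mul_sqq (q : Pg) {u m : K8} (hm : m ≠ 0) (h : Sq (nuq q) u) :
    Sq (nuq q) (m ^ 2 * u) := by
  obtain ⟨b, hb, h⟩ := h
  refine ⟨m * b, mul_ne_zero hm hb, ?_⟩
  have e : m ^ 2 * u / (m * b) ^ 2 - 1 = u / b ^ 2 - 1 := by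
    field_simp
  rwa [e]

/-- **The row of a prime which divides `d`**, converse. -/
theorem rowS' {k j : ZMod 2} {S : Finset Pg} {q : Pg} (hq : q ∈ S) (ha : aa q.1 = 0)
    (V : Option Pg → ZMod 2)
    (h : V (some q) * (rr q.1 + j * ll q.1 + ∑ p ∈ S.erase q, sy q p) +
      ∑ p ∈ S.erase q, V (some p) * sy q p + V none * ll q.1 = 0) :
    GLocS (nuq q) (dW k j S : K8) ((gpr gq (insertNone S) V : 𝓞 K8) : K8) := by
  obtain ⟨G, hG⟩ : ∃ G, G = gpr gq ((insertNone S).erase (some q)) V := ⟨_, rfl⟩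
  have hmem : some q ∈ insertNone S := some_mem_insertNone.2 hq
  have hGn : ¬ q.1 ∣ G := by
    rw [hG]
    exact not_dvd_gpr q.2.1 (fun i hi => gq_ne (some q) i (ne_of_mem_erase hi).symm) V
  have hlG := ls_part q S V
  rw [← hG] at hlG
  have hge : gpr gq (insertNone S) V = q.1 ^ (V (some q)).val * G := by
    rw [gpr_erase gq hmem, ← hG]
    rfl
  rw [hge]
  have h01 : ∀ v : ZMod 2, v = 0 ∨ v = 1 := by decide
  have h1v : ((1 : ZMod 2)).val = 1 := rfl
  rcases h01 (V (some q)) with h2 | h2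
  · left
    rw [h2, zero_mul, zero_add, ← hlG] at h
    rw [h2, ZMod.val_zero, pow_zero, one_mul]
    exact sq_of_cc q hGn h
  · right; right; left
    rw [h2, one_mul] at h
    rw [h2, h1v, pow_one]
    obtain ⟨c, hc⟩ : ∃ c : 𝓞 K8, q.1 ∣ c ^ 2 - 2 := by
      classical
      have h3 := cc_two q
      rw [ha, cc_def] at h3
      by_contra h4
      rw [if_neg h4] at h3
      exact one_ne_zero h3
    obtain ⟨hc1, hc2⟩ := cc_root q ha hc
    have hdq := not_dvd_dq k j S q
    have hx1 := q.2.1.not_dvd_mul hGn (q.2.1.not_dvd_mul hc1 hdq)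
    have hq0 : ((q.1 : 𝓞 K8) : K8) ≠ 0 := coe_ne q.2.1.ne_zero
    have ec2 : ((c - 2 : 𝓞 K8) : K8) = (c : K8) - 2 := by
      push_cast
      rw [coe_two8]
    refine ⟨(c : K8), ?_, ?_, ?_⟩
    · rw [← ec2]
      exact coe_ne fun h0 => hc1 (h0 ▸ dvd_zero _)
    · have e16 : nuq q 16 = 1 := by
        rw [show (16 : K8) = 4 * 4 by norm_num, map_mul, nuq_four, mul_one]
      have e : (c : K8) ^ 2 / 2 - 1 = ((c ^ 2 - 2 : 𝓞 K8) : K8) / 2 := by
        push_cast
        rw [coe_two8]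
        ring
      rw [e16, e, map_div₀, nuq_two, div_one]
      exact (pv_lt (N := K8) q.2.1).2 hc
    · have e : ((q.1 * G : 𝓞 K8) : K8) * (((c : K8) - 2) * (dW k j S : K8)) =
          (q.1 : K8) ^ 2 * ((G * ((c - 2) * dq k j S q) : 𝓞 K8) : K8) := by
        rw [dW_eq k j hq, ← ec2]
        push_cast
        ring
      rw [e]
      refine Sq_mul_sqq q hq0 (sq_of_cc q hx1 ?_)
      rw [cc_mul q hGn (q.2.1.not_dvd_mul hc1 hdq), hlG, cc_mul q hc1 hdq, hc2, cc_dq, ha, mul_zero,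
        zero_add]
      have key : ∀ s v l r j t : ZMod 2, r + j * l + t + s + v * l = 0 →
          s + v * l + (r + l + ((1 + j) * l + t)) = 0 := by decide
      exact key _ _ _ _ _ _ h

/-- **The row of a prime with `a = 1`**, converse. -/
theorem rowS1' {k j : ZMod 2} {S : Finset Pg} {q : Pg} (hq : q ∈ S) (ha : aa q.1 = 1)
    (V : Option Pg → ZMod 2) (h : V (some q) = 0) :
    GLocS (nuq q) (dW k j S : K8) ((gpr gq (insertNone S) V : 𝓞 K8) : K8) := by
  obtain ⟨G, hG⟩ : ∃ G, G = gpr gq ((insertNone S).erase (some q)) V := ⟨_, rfl⟩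
  have hmem : some q ∈ insertNone S := some_mem_insertNone.2 hq
  have hGn : ¬ q.1 ∣ G := by
    rw [hG]
    exact not_dvd_gpr q.2.1 (fun i hi => gq_ne (some q) i (ne_of_mem_erase hi).symm) V
  have hge : gpr gq (insertNone S) V = G := by
    rw [gpr_erase gq hmem, ← hG, h, ZMod.val_zero, pow_zero, one_mul]
  rw [hge]
  have h01 : ∀ v : ZMod 2, v = 0 ∨ v = 1 := by decide
  rcases h01 (cc q G) with h2 | h2
  · exact Or.inl (sq_of_cc q hGn h2)
  · right; left
    have hn : ¬ q.1 ∣ -1 * G := q.2.1.not_dvd_mul (not_dvd_neg_one q) hGn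
    have h3 : cc q (-1 * G) = 0 := by
      rw [cc_mul q (not_dvd_neg_one q) hGn, cc_neg_one, ha, h2]
      decide
    have h4 := sq_of_cc q hn h3
    have e : ((-1 * G : 𝓞 K8) : K8) = -(G : K8) := by
      rw [cmul, cneg, cone, neg_one_mul]
    rwa [e] at h4

/-! ### the classes -/

/-- a class with an odd exponent is not a square, up to the sign -/
theorem gpr_not_sq {T : Finset (Option Pg)} {V : Option Pg → ZMod 2} {i : Option Pg}
    (hi : i ∈ T) (h : V i = 1) :
    ¬ IsSquare ((gpr gq T V : 𝓞 K8) : K8) ∧ ¬ IsSquare (-((gpr gq T V : 𝓞 K8) : K8)) := by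
  have h1v : ((1 : ZMod 2)).val = 1 := rfl
  have hn : ¬ gq i ∣ gpr gq (T.erase i) V :=
    not_dvd_gpr (gq_prime i) (fun p hp => gq_ne i p (ne_of_mem_erase hp).symm) V
  have hv : (pv (gq i) (gq_prime i)).valuation K8 ((gpr gq T V : 𝓞 K8) : K8) = exp (-1) := by
    rw [gpr_erase gq hi, h, h1v, pow_one, cmul, map_mul, pv_self, pv_one (gq_prime i) hn, mul_one]
  have h0 : ¬ IsSquare (exp (-1) : ℤᵐ⁰) := not_sq_exp1
  constructor
  · intro hs
    have h1 := hs.map ((pv (gq i) (gq_prime i)).valuation K8)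
    rw [hv] at h1
    exact h0 h1
  · intro hs
    have h1 := hs.map ((pv (gq i) (gq_prime i)).valuation K8)
    rw [Valuation.map_neg, hv] at h1
    exact h0 h1

theorem complex_K8 (v : InfinitePlace K8) : v.IsComplex := by
  rw [← InfinitePlace.not_isReal_iff_isComplex]
  intro h
  have h3 := congrArg (InfinitePlace.embedding_of_isReal h) z8_sq
  rw [map_pow, map_neg, map_ofNat] at h3
  nlinarith [sq_nonneg (InfinitePlace.embedding_of_isReal h z8)]

theorem two_K8 : ¬ IsSquare (2 : K8) := by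
  rintro ⟨t, ht⟩
  refine neg_one_K8 ⟨t / z8, ?_⟩
  rw [div_mul_div_comm, ← ht, ← pow_two, z8_sq]
  norm_num

/-- the local conditions for a class -/
theorem gloc_allS {k j : ZMod 2} {S : Finset Pg} {V : Option Pg → ZMod 2}
    (h0 : ∀ q ∈ S, aa q.1 = 0 →
      V (some q) * (rr q.1 + j * ll q.1 + ∑ p ∈ S.erase q, sy q p) +
      ∑ p ∈ S.erase q, V (some p) * sy q p + V none * ll q.1 = 0)
    (h1 : ∀ q ∈ S, aa q.1 = 1 → V (some q) = 0)
    (hlam : GLocS nuL (dW k j S : K8) ((gpr gq (insertNone S) V : 𝓞 K8) : K8))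
    (v : HeightOneSpectrum (𝓞 K8)) :
    GLocS (v.valuation K8) (dW k j S : K8) ((gpr gq (insertNone S) V : 𝓞 K8) : K8) := by
  have h01 : ∀ v : ZMod 2, v = 0 ∨ v = 1 := by decide
  obtain ⟨π, hπ, rfl⟩ := exists_pv v
  by_cases h3 : π ∣ lam
  · rw [pv_eq hπ lam_prime h3]
    exact hlam
  by_cases hq : ∃ q ∈ S, π ∣ q.1
  · obtain ⟨q, hqS, hd⟩ := hq
    rw [pv_eq hπ q.2.1 hd]
    rcases h01 (aa q.1) with h | h
    · exact rowS' hqS h V (h0 q hqS h)
    · exact rowS1' hqS h V (h1 q hqS h)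
  · push Not at hq
    have hn : ∀ i ∈ insertNone S, ¬ π ∣ gq i := by
      intro i hi
      rcases i with _ | q
      · exact h3
      · exact hq q (some_mem_insertNone.1 hi)
    have h2 : ¬ π ∣ (2 : 𝓞 K8) := by
      rw [two_eq, dvd_neg]
      exact fun h => h3 (hπ.dvd_of_dvd_pow h)
    have e : ((2 : 𝓞 K8) : K8) = 2 := map_ofNat (algebraMap (𝓞 K8) K8) 2
    have h4 := pv_one (N := K8) hπ h2
    rw [e] at h4
    have h5 := not_dvd_gpr hπ hn V
    refine goodVS (pv π hπ) z8_sq h4 (pv_one hπ (not_dvd_dW hπ hn))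
      (coe_ne fun h => h5 (h ▸ dvd_zero _)) ?_
    rw [pv_one hπ h5]
    exact ⟨1, (one_mul 1).symm⟩

/-- a vector on `S` as a function on the primes -/
theorem exists_extS {S : Finset Pg} (v : S → ZMod 2) : ∃ f : Pg → ZMod 2, v = fun q : S => f q :=
  ⟨fun q => if hq : q ∈ S then v ⟨q, hq⟩ else 0, funext fun q => by simp⟩

/-- the rows of the matrices are the rows of the local conditions -/
theorem rows_of {j : ZMod 2} {S : Finset Pg} {V : Option Pg → ZMod 2}
    (hrow : ∀ i ∈ S, (xW j i + ∑ p ∈ S.erase i, sW i p) * V (some i) +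
      ∑ p ∈ S.erase i, sW i p * V (some p) + lW i * V none = 0) :
    (∀ q ∈ S, aa q.1 = 0 →
      V (some q) * (rr q.1 + j * ll q.1 + ∑ p ∈ S.erase q, sy q p) +
      ∑ p ∈ S.erase q, V (some p) * sy q p + V none * ll q.1 = 0) ∧
    ∀ q ∈ S, aa q.1 = 1 → V (some q) = 0 := by
  refine ⟨fun i hi h0 => ?_, fun i hi h1 => ?_⟩
  · have h2 := hrow i hi
    have e1 : ∀ p, sW i p = sy i p := fun p => if_pos h0
    have e2 : xW j i = rr i.1 + j * ll i.1 := if_pos h0
    have e3 : lW i = ll i.1 := if_pos h0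
    simp only [e1, e2, e3] at h2
    rw [mul_comm _ (V (some i)), mul_comm (ll i.1)] at h2
    have e4 : ∑ p ∈ S.erase i, sy i p * V (some p) = ∑ p ∈ S.erase i, V (some p) * sy i p :=
      sum_congr rfl fun p _ => mul_comm _ _
    rw [e4] at h2
    exact h2
  · have hn0 : ¬ aa i.1 = 0 := by
      rw [h1]
      exact one_ne_zero
    have h2 := hrow i hi
    have e1 : ∀ p, sW i p = 0 := fun p => if_neg hn0
    have e2 : xW j i = 1 := if_neg hn0
    have e3 : lW i = 0 := if_neg hn0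
    simp only [e1, e2, e3] at h2
    simpa using h2

/-- the class `lam ^ v y` -/
theorem class_y {S : Finset Pg} {V : Option Pg → ZMod 2} (h1 : ∀ q ∈ S, aa q.1 = 1 → V (some q) = 0) :
    ∃ y : 𝓞 K8, gpr gq (insertNone S) V = lam ^ (V none).val * y ∧ Pr y ∧ aa y = 0 ∧
      ll y = ∑ p ∈ S, lW p * V (some p) := by
  have h01 : ∀ v : ZMod 2, v = 0 ∨ v = 1 := by decide
  have h1v : ((1 : ZMod 2)).val = 1 := rfl
  have hqv : ∀ q : Pg, ∀ e : ZMod 2, Pr (q.1 ^ e.val) ∧ aa (q.1 ^ e.val) = e * aa q.1 ∧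
      ll (q.1 ^ e.val) = e * ll q.1 := by
    intro q e
    rcases h01 e with rfl | rfl
    · rw [ZMod.val_zero, pow_zero, zero_mul, zero_mul]
      exact ⟨Pr.one, aa_one, ll_one⟩
    · rw [h1v, pow_one, one_mul, one_mul]
      exact ⟨q.2.2, rfl, rfl⟩
  refine ⟨∏ q ∈ S, q.1 ^ (V (some q)).val, ?_, Pr.prod S _ fun q _ => (hqv q _).1, ?_, ?_⟩
  · rw [gpr, prod_insertNone]
    rfl
  · rw [aa_prod S _ fun q _ => (hqv q _).1]
    refine sum_eq_zero fun q hqS => ?_
    rw [(hqv q _).2.1]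
    rcases h01 (aa q.1) with h | h
    · rw [h, mul_zero]
    · rw [h1 q hqS h, zero_mul]
  · rw [ll_prod S _ fun q _ => (hqv q _).1]
    refine sum_congr rfl fun q hqS => ?_
    rw [(hqv q _).2.2, lW]
    rcases h01 (aa q.1) with h | h
    · rw [if_pos h, mul_comm]
    · rw [h1 q hqS h, zero_mul, mul_zero]

/-- the converse for the class of a kernel vector -/
theorem conv_classS {k j : ZMod 2} {S : Finset Pg} {V : Option Pg → ZMod 2}
    (hrow : ∀ i ∈ S, (xW j i + ∑ p ∈ S.erase i, sW i p) * V (some i) +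
      ∑ p ∈ S.erase i, sW i p * V (some p) + lW i * V none = 0)
    (hlam : GLocS nuL (dW k j S : K8) ((gpr gq (insertNone S) V : 𝓞 K8) : K8))
    {i : Option Pg} (hi : i ∈ insertNone S) (hV : V i ≠ 0)
    {W : WeierstrassCurve K8} (hW : W = WW (dW k j S)) (hfin : Finite W.toAffine.Point) :
    Nat.card (ShaP 2 W) ≠ 1 := by
  have h01 : ∀ v : ZMod 2, v = 0 ∨ v = 1 := by decide
  obtain ⟨h0, h1⟩ := rows_of hrow
  have hV1 : V i = 1 := (h01 _).resolve_left hV
  obtain ⟨g1, g2⟩ := gpr_not_sq hi hV1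
  have hne : ((gpr gq (insertNone S) V : 𝓞 K8) : K8) ≠ 0 := fun h => g1 (by
    rw [h]
    exact ⟨0, by ring⟩)
  exact conv_selS (dW_ne' k j S) z8_sq complex_K8 two_K8 _ hne (gloc_allS h0 h1 hlam) g1 g2
    (by rw [hW, WW_cs]) hfin

/-- **The converse of the descent over `ℚ(√-2)`.** -/
theorem gW_of_sha {k j : ZMod 2} {S : Finset Pg} {W : WeierstrassCurve K8}
    (hW : W = WW (dW k j S)) (hfin : Finite W.toAffine.Point) (hcard : Nat.card (ShaP 2 W) = 1) :
    GW k j S ≠ 0 := by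
  intro hG
  have h01 : ∀ v : ZMod 2, v = 0 ∨ v = 1 := by decide
  have h1v : ((1 : ZMod 2)).val = 1 := rfl
  by_cases hc : j = 0 ∨ AS S = 1
  · rw [GW, if_pos hc] at hG
    obtain ⟨v, hv0, hv⟩ := exists_mulVec_eq_zero_iff.2 hG
    obtain ⟨f, rfl⟩ := exists_extS v
    obtain ⟨V, hVn, hVs⟩ : ∃ V : Option Pg → ZMod 2, V none = 0 ∧ ∀ q, V (some q) = f q :=
      ⟨fun o => o.elim 0 f, rfl, fun _ => rfl⟩
    have hrow : ∀ i ∈ S, (xW j i + ∑ p ∈ S.erase i, sW i p) * V (some i) +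
        ∑ p ∈ S.erase i, sW i p * V (some p) + lW i * V none = 0 := by
      intro i hi
      have h2 := congrFun hv ⟨i, hi⟩
      have h3 := MM_row sW (xW j) S f ⟨i, hi⟩
      rw [hVn, mul_zero, add_zero]
      simp only [hVs]
      rw [← h3]
      exact h2
    obtain ⟨q, hq⟩ : ∃ q : S, f q ≠ 0 := by
      by_contra h2
      push Not at h2
      exact hv0 (funext h2)
    refine conv_classS (k := k) hrow ?_ (i := some q.1) (some_mem_insertNone.2 q.2)
      (by rw [hVs]; exact hq) hW hfin hcard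
    obtain ⟨y, hy, hP, ha, -⟩ := class_y (rows_of hrow).2
    rw [hy, hVn, ZMod.val_zero, pow_zero, one_mul]
    exact lam_even' (Pr_DD S) (by rw [aa_DD]; exact hc) hP ha
  · rw [GW, if_neg hc] at hG
    rw [not_or] at hc
    have hj : j = 1 := (h01 j).resolve_left hc.1
    have hA : AS S = 0 := (h01 (AS S)).resolve_right hc.2
    subst hj
    obtain ⟨v, hv0, hv⟩ := exists_mulVec_eq_zero_iff.2 hG
    obtain ⟨f, hf⟩ := exists_extS fun q : S => v (some q)
    obtain ⟨V, hVn, hVs⟩ : ∃ V : Option Pg → ZMod 2, V none = v none ∧ ∀ q, V (some q) = f q :=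
      ⟨fun o => o.elim (v none) f, rfl, fun _ => rfl⟩
    have hfv : ∀ q : S, v (some q) = f q := fun q => congrFun hf q
    have hrow : ∀ i ∈ S, (xW 1 i + ∑ p ∈ S.erase i, sW i p) * V (some i) +
        ∑ p ∈ S.erase i, sW i p * V (some p) + lW i * V none = 0 := by
      intro i hi
      have h2 := congrFun hv (some ⟨i, hi⟩)
      have h3 := MM_row sW (xW 1) S f ⟨i, hi⟩
      have h4 : ∑ p : Option S, BB sW (xW 1) lW lW (k + lS S) S (some ⟨i, hi⟩) p * v p = 0 := h2
      rw [Fintype.sum_option] at h4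
      have h5 : lW i * v none + ∑ p : S, MM sW (xW 1) S ⟨i, hi⟩ p * f p = 0 := by
        rw [← h4]
        congr 1
        exact sum_congr rfl fun p _ => by rw [← hfv]; rfl
      rw [h3, add_comm] at h5
      rw [hVn]
      simp only [hVs]
      exact h5
    have hlast : ∑ p ∈ S, lW p * V (some p) = (k + lS S) * V none := by
      have h2 := congrFun hv none
      have h4 : ∑ p : Option S, BB sW (xW 1) lW lW (k + lS S) S none p * v p = 0 := h2
      rw [Fintype.sum_option] at h4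
      have h5 : (k + lS S) * v none + ∑ p : S, lW p * f p = 0 := by
        rw [← h4]
        congr 1
        exact sum_congr rfl fun p _ => by rw [← hfv]; rfl
      rw [sum_coe_sort S (fun p : Pg => lW p * f p)] at h5
      rw [hVn]
      simp only [hVs]
      have key : ∀ a b : ZMod 2, a + b = 0 → b = a := by decide
      exact key _ _ h5
    obtain ⟨i, hi, hVi⟩ : ∃ i ∈ insertNone S, V i ≠ 0 := by
      by_contra h2
      push Not at h2
      apply hv0
      funext o
      rcases o with _ | q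
      · rw [← hVn]
        exact h2 none (by simp)
      · rw [hfv, ← hVs]
        exact h2 (some q.1) (some_mem_insertNone.2 q.2)
    refine conv_classS (k := k) hrow ?_ hi hVi hW hfin hcard
    obtain ⟨y, hy, hP, ha, hl⟩ := class_y (rows_of hrow).2
    have ed : dW k 1 S = (-1) ^ k.val * DD S := by
      rw [dW, h1v]
      norm_num
    rw [hy, ed]
    refine lam_row' (Pr_DD S) (by rw [aa_DD]; exact hA) hP ha ?_
    rw [hl, hlast, ll_DD]

end

end Pool.Agent.Lib.MP_1a91b9_ntW.C
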