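import Pool.Agent.Lib.MP_1a91b9_ntS.C.Hs
import Pool.Agent.Lib.MP_1a91b9_ntW.C.Coc

/-!
# MP_1a91b9_nt, `ℚ(√-2)`, converse of the descent by `√-2`: a Selmer element which is not the
class of a point gives a nonzero class in the 2-primary part of the Tate-Shafarevich group
-/

set_option autoImplicit false

namespace Pool.Agent.Lib.MP_1a91b9_ntW.C

open WeierstrassCurve WithZero NumberField IsDedekindDomain
open Pool.Agent.Lib.MP_1a91b9_ntH.C (Sq)
open Pool.Agent.Lib.MP_1a91b9_ntT.S9 (Pts Gal coc cob trivOver shaCoc Sha up)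
open Pool.Agent.Lib.MP_1a91b9_ntT3.S9 (ShaP)
open Pool.Agent.Lib.MP_1a91b9_ntS.C (isSquare_of_Sq)
open scoped Classical

/-! ### the cocycle of an element -/

open scoped Pointwise in
private theorem cvs_lc {k : Type*} [Field k] [CharZero k] {X : Type*} (x : AlgebraicClosure k)
    (F : AlgebraicClosure k → X) : IsLocallyConstant fun σ : Gal k => F (σ x) := by
  rw [IsLocallyConstant.iff_exists_open]
  intro σ
  have hx : IsIntegral k x := (Algebra.IsAlgebraic.isAlgebraic x).isIntegral
  let M : IntermediateField k (AlgebraicClosure k) := IntermediateField.adjoin k {x}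
  have hM : FiniteDimensional k M := IntermediateField.adjoin.finiteDimensional hx
  have hxM : x ∈ M := IntermediateField.subset_adjoin k _ (by simp)
  refine ⟨σ • (M.fixingSubgroup : Set (Gal k)),
    (IntermediateField.fixingSubgroup_isOpen M).smul σ,
    ⟨1, one_mem _, by simp⟩, ?_⟩
  rintro _ ⟨τ, hτ, rfl⟩
  have hτ' : ∀ z ∈ M, τ z = z := (IntermediateField.mem_fixingSubgroup_iff M τ).1 hτ
  have e1 : (σ • τ : Gal k) x = σ x := congrArg σ (hτ' x hxM)
  show F ((σ • τ : Gal k) x) = F (σ x)
  rw [e1]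

private theorem cvs_congr {F : Type*} [Field F] {W : Affine F} {x x' y y' : F} (hx : x = x')
    (hy : y = y') (h1 : W.Nonsingular x y) (h2 : W.Nonsingular x' y') :
    Affine.Point.some x y h1 = Affine.Point.some x' y' h2 := by
  subst hx
  subst hy
  rfl

private theorem cvs_sgn {k : Type*} [Field k] [CharZero k] (a : k) (b : AlgebraicClosure k)
    (hab : algebraMap k (AlgebraicClosure k) a = b ^ 2) (σ : Gal k) : σ b = b ∨ σ b = -b := by
  refine sq_eq_sq_iff_eq_or_eq_neg.1 ?_
  rw [← map_pow, ← hab]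
  exact σ.commutes a

/-- the character is injective on the kernel -/
theorem ch_inj {F : Type*} [Field F] [CharZero F] {W : Affine F} {z d : F} (h : IsS W z d)
    {F' : Type*} [Field F'] [CharZero F'] (P Q : W.Point) (hP : mu h P = 0) (hQ : mu h Q = 0)
    (e : ch F' P = ch F' Q) : P = Q := by
  have hne : (1 : F') ≠ -1 := fun h1 => two_ne_zero (α := F') (by linear_combination h1)
  rcases mu_ker_all h P hP with rfl | rfl <;> rcases mu_ker_all h Q hQ with rfl | rfl
  · rfl
  · rw [ch_zero, ch_tq] at e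
    exact absurd e hne
  · rw [ch_zero, ch_tq] at e
    exact absurd e.symm hne
  · rfl

section

variable {k : Type*} [Field k] [CharZero k] {z d : k} (hd : d ≠ 0) (hz : z ^ 2 = -2)

/-- the cocycle of `a` -/
theorem exists_cocS (a : k) (ha : a ≠ 0) :
    ∃ (c : Gal k → Pts (cs d) (AlgebraicClosure k)) (b : AlgebraicClosure k),
      c ∈ coc (cs d) ∧ (∀ σ, mu (isS_bc hd hz (AlgebraicClosure k)) (c σ) = 0) ∧
      KD (d := d) c a b := by
  set h := isS_bc hd hz (AlgebraicClosure k) with hh
  obtain ⟨b, hb⟩ : ∃ b : AlgebraicClosure k, b ^ 2 = algebraMap k (AlgebraicClosure k) a :=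
    IsAlgClosed.exists_pow_nat_eq _ (by norm_num)
  have hb0 : b ≠ 0 := by
    rintro rfl
    apply ha
    have h2 : algebraMap k (AlgebraicClosure k) a = 0 := by
      rw [← hb]
      norm_num
    rwa [map_eq_zero] at h2
  have hne : -b ≠ b := fun h => by
    have h2 : 2 * b = 0 := by linear_combination -h
    rcases mul_eq_zero.1 h2 with h3 | h3
    · exact two_ne_zero h3
    · exact hb0 h3
  set c : Gal k → Pts (cs d) (AlgebraicClosure k) := fun σ => if σ b = b then 0 else tq h with hc
  have hmu : ∀ σ, mu h (c σ) = 0 := by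
    intro σ
    rw [hc]
    dsimp only
    split_ifs
    · exact _root_.map_zero _
    · exact mu_tq h
  have hch : ∀ σ, ch (AlgebraicClosure k) (c σ) = if σ b = b then 1 else -1 := by
    intro σ
    rw [hc]
    dsimp only
    split_ifs
    · exact ch_zero
    · exact ch_tq h
  have hact : ∀ σ : Gal k, σ b = ch (AlgebraicClosure k) (c σ) * b := by
    intro σ
    rw [hch]
    split_ifs with h1
    · rw [h1, one_mul]
    · rcases cvs_sgn a b hb.symm σ with h2 | h2
      · exact absurd h2 h1
      · rw [h2, neg_one_mul]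
  refine ⟨c, b, ⟨?_, fun σ τ => ?_⟩, hmu, ⟨hb0, hb.symm, hact⟩⟩
  · exact cvs_lc b fun x => if x = b then 0 else tq h
  · have hτ : act (cs d) σ (c τ) = c τ := act_ker hd hz σ (c τ) (hmu τ)
    have hτ' : Affine.Point.map (σ : AlgebraicClosure k →ₐ[k] AlgebraicClosure k) (c τ) = c τ := hτ
    rw [hτ']
    refine ch_inj h (F' := AlgebraicClosure k) _ _ (hmu _) ?_ ?_
    · rw [_root_.map_add, hmu, hmu, add_zero]
    · rw [ch_add h _ _ (hmu _) (hmu _)]
      have h1 : (σ * τ) b = σ (τ b) := rfl
      apply mul_right_cancel₀ hb0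
      rw [← hact, h1, hact τ, map_mul, hact σ]
      have h2 : σ (ch (AlgebraicClosure k) (c τ)) = ch (AlgebraicClosure k) (c τ) := by
        rcases ch_cases (F' := AlgebraicClosure k) (c τ) with h3 | h3 <;> rw [h3]
        · exact map_one σ
        · rw [map_neg, map_one]
      rw [h2]
      ring

/-! ### the cocycle over an extension -/

section

variable (c : Gal k → Pts (cs d) (AlgebraicClosure k))
  (hmu : ∀ σ, mu (isS_bc hd hz (AlgebraicClosure k)) (c σ) = 0) (a : k)
  (b : AlgebraicClosure k) (hk : KD c a b) {L : Type*} [Field L] [CharZero L] [Algebra k L]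

include hmu hk

/-- `a` is a square in `L` -/
theorem trivS_of_sq (h : IsSquare (algebraMap k L a)) : c ∈ trivOver (cs d) L := by
  intro j
  refine ⟨0, fun σ τ hτ => ?_⟩
  have hja : ∀ x : k, j (algebraMap k (AlgebraicClosure k) x) =
      algebraMap L (AlgebraicClosure L) (algebraMap k L x) := by
    intro x
    rw [j.commutes, ← IsScalarTower.algebraMap_apply]
  have hc : c τ = 0 := by
    obtain ⟨s, hs⟩ := h
    have hb : j b ^ 2 = (algebraMap L (AlgebraicClosure L) s) ^ 2 := by
      rw [← map_pow, ← hk.sq, hja, hs, map_mul, sq]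
    have hfix : σ (j b) = j b := by
      rcases sq_eq_sq_iff_eq_or_eq_neg.1 hb with h | h
      · rw [h]
        exact σ.commutes s
      · rw [h, map_neg]
        exact congrArg _ (σ.commutes s)
    have hfix2 : τ b = b := j.injective ((hτ b).trans hfix)
    have hact := hk.act τ
    rw [hfix2] at hact
    have h3 : ch (AlgebraicClosure k) (c τ) = 1 := (mul_eq_right₀ hk.ne).1 hact.symm
    exact ch_eq_one _ h3
  rw [hc, _root_.map_zero, _root_.map_zero, sub_zero]

/-- the comparison of the cocycle with the coboundary of a point whose image is rational -/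
theorem trivS_of_fn (j : AlgebraicClosure k →ₐ[k] AlgebraicClosure L)
    (S : Pts (cs d) (AlgebraicClosure L)) (f : AlgebraicClosure L) (hf0 : f ≠ 0)
    (hS : ∀ σ : Gal L, ∃ R : Pts (cs d) (AlgebraicClosure L),
      mu (isS_bc hd hz (AlgebraicClosure L)) R = 0 ∧
      Affine.Point.map (W' := cs d)
        ((σ : AlgebraicClosure L →ₐ[L] AlgebraicClosure L).restrictScalars k) S = S + R ∧
      σ f = ch (AlgebraicClosure L) R * f)
    (κ : L) (hκ : (j b * f) ^ 2 = algebraMap L (AlgebraicClosure L) κ ^ 2)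
    (σ : Gal L) (τ : Gal k) (hτ : ∀ x, j (τ x) = σ (j x)) :
    Affine.Point.map j (c τ) =
      Affine.Point.map ((σ : AlgebraicClosure L →ₐ[L] _).restrictScalars k) S - S := by
  obtain ⟨R, hR0, hR, hf⟩ := hS σ
  have hj0 : mu (isS_bc hd hz (AlgebraicClosure L)) (Affine.Point.map j (c τ)) = 0 := by
    rw [← mu_map hd hz, hmu, _root_.map_zero]
  have hbj : σ (j b) = ch (AlgebraicClosure L) (Affine.Point.map (W' := cs d) j (c τ)) * j b := by
    rw [← hτ, hk.act τ, map_mul, ch_map]
    congr 1
    rcases ch_cases (F' := AlgebraicClosure k) (c τ) with h1 | h1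
    · have h2 : c τ = 0 := by
        by_contra h3
        unfold ch at h1
        rw [if_neg h3] at h1
        exact two_ne_zero (α := AlgebraicClosure k) (by linear_combination -h1)
      rw [h1, h2, ch_zero, map_one]
    · have h2 : c τ ≠ 0 := by
        intro h3
        rw [h3, ch_zero] at h1
        exact two_ne_zero (α := AlgebraicClosure k) (by linear_combination h1)
      rw [h1, map_neg, map_one]
      unfold ch
      rw [if_neg h2]
  have hfix : σ (j b * f) = j b * f := by
    rcases sq_eq_sq_iff_eq_or_eq_neg.1 hκ with h | h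
    · rw [h]
      exact σ.commutes κ
    · rw [h, map_neg]
      exact congrArg _ (σ.commutes κ)
  rw [map_mul, hbj, hf] at hfix
  have hx0 : j b * f ≠ 0 := mul_ne_zero ((map_ne_zero j).2 hk.ne) hf0
  have hprod : ch (AlgebraicClosure L) (Affine.Point.map (W' := cs d) j (c τ)) *
      ch (AlgebraicClosure L) R = 1 := by
    apply mul_right_cancel₀ hx0
    linear_combination hfix
  have hch : ch (AlgebraicClosure L) (Affine.Point.map (W' := cs d) j (c τ)) =
      ch (AlgebraicClosure L) R := by
    have h1 := ch_sq (F' := AlgebraicClosure L) R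
    linear_combination (ch (AlgebraicClosure L) R) * hprod -
      (ch (AlgebraicClosure L) (Affine.Point.map (W' := cs d) j (c τ))) * h1
  have h2 := ch_inj (isS_bc hd hz (AlgebraicClosure L)) (F' := AlgebraicClosure L) _ _ hj0 hR0 hch
  rw [h2, hR]
  abel

/-- `a` is the class of the point `(x, y)`, `x ≠ 0`, over `L` -/
theorem trivS_of_pt (x y : L)
    (hxy : y ^ 2 = x ^ 3 + 4 * algebraMap k L d * x ^ 2 + 2 * algebraMap k L d ^ 2 * x) (hx : x ≠ 0)
    (h : IsSquare (algebraMap k L a * x)) : c ∈ trivOver (cs d) L := by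
  intro j
  have hja : ∀ x : k, j (algebraMap k (AlgebraicClosure k) x) =
      algebraMap L (AlgebraicClosure L) (algebraMap k L x) := by
    intro x
    rw [j.commutes, ← IsScalarTower.algebraMap_apply]
  have hdd : algebraMap k (AlgebraicClosure L) d =
      algebraMap L (AlgebraicClosure L) (algebraMap k L d) := IsScalarTower.algebraMap_apply _ _ _ _
  set hA := isS_bc hd hz (AlgebraicClosure L) with hAdef
  have hns : (Affine.baseChange (cs d) (AlgebraicClosure L)).Nonsingular
      (algebraMap L (AlgebraicClosure L) x) (algebraMap L (AlgebraicClosure L) y) :=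
    (hA.nons _ _).2 (by
      rw [hdd]
      have h1 := congrArg (algebraMap L (AlgebraicClosure L)) hxy
      simpa only [map_pow, map_add, map_mul, map_ofNat] using h1)
  obtain ⟨S, hS⟩ := exists_mu_closed hA (.some _ _ hns)
  have hne : mu hA S ≠ 0 := by
    rw [hS]
    exact Affine.Point.some_ne_zero _
  obtain ⟨κ, hκ⟩ := h
  have hcsq := cfn_sq hA S hns hS
  have hx' : algebraMap L (AlgebraicClosure L) x ≠ 0 := (map_ne_zero _).2 hx
  refine ⟨S, trivS_of_fn hd hz c hmu a b hk j S (cfn (algebraMap k (AlgebraicClosure L) z) S) ?_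
    (fun σ => ?_) κ ?_⟩
  · intro h0
    rw [h0] at hcsq
    apply hx'
    rw [← hcsq]
    norm_num
  · have hfix : Affine.Point.map (W' := cs d)
        ((σ : AlgebraicClosure L →ₐ[L] AlgebraicClosure L).restrictScalars k) (.some _ _ hns) =
        .some _ _ hns := by
      rw [Affine.Point.map_some, Affine.Point.some.injEq]
      exact ⟨σ.commutes x, σ.commutes y⟩
    have hR0 : mu hA (Affine.Point.map (W' := cs d)
        ((σ : AlgebraicClosure L →ₐ[L] AlgebraicClosure L).restrictScalars k) S - S) = 0 := by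
      rw [_root_.map_sub, hAdef, ← mu_map hd hz, ← hAdef, hS, hfix, sub_self]
    refine ⟨_, hR0, by abel, ?_⟩
    have h1 : σ (cfn (algebraMap k (AlgebraicClosure L) z) S) =
        cfn (algebraMap k (AlgebraicClosure L) z) (Affine.Point.map (W' := cs d)
          ((σ : AlgebraicClosure L →ₐ[L] AlgebraicClosure L).restrictScalars k) S) :=
      (cfn_map ((σ : AlgebraicClosure L →ₐ[L] AlgebraicClosure L).restrictScalars k) S).symm
    rw [h1, ← cfn_add hA S _ hne hR0, add_sub_cancel]
  · rw [mul_pow, hcsq, ← map_pow, ← hk.sq, hja, ← map_mul, hκ, map_mul, sq]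

/-- `a` is the class of the point `(0, 0)` over `L` -/
theorem trivS_of_tq (h : IsSquare (algebraMap k L (-a))) : c ∈ trivOver (cs d) L := by
  intro j
  have hja : ∀ x : k, j (algebraMap k (AlgebraicClosure k) x) =
      algebraMap L (AlgebraicClosure L) (algebraMap k L x) := by
    intro x
    rw [j.commutes, ← IsScalarTower.algebraMap_apply]
  have hdd : algebraMap k (AlgebraicClosure L) d =
      algebraMap L (AlgebraicClosure L) (algebraMap k L d) := IsScalarTower.algebraMap_apply _ _ _ _
  set hA := isS_bc hd hz (AlgebraicClosure L) with hAdef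
  obtain ⟨w, hw⟩ := IsAlgClosed.exists_pow_nat_eq (2 : AlgebraicClosure L) (n := 2) (by norm_num)
  have hw2 : w - 2 ≠ 0 := by
    intro h0
    rw [sub_eq_zero.1 h0] at hw
    norm_num at hw
  have hw0 : w ≠ 0 := by
    rintro rfl
    norm_num at hw
  obtain ⟨κ, hκ⟩ := h
  have hns := root_nons hA hw
  have hX0 := mul_ne_zero hw2 hA.hd
  have hσd : ∀ σ : Gal L, σ (algebraMap k (AlgebraicClosure L) d) =
      algebraMap k (AlgebraicClosure L) d := by
    intro σ
    rw [hdd]
    exact σ.commutes _
  refine ⟨.some _ 0 hns, trivS_of_fn hd hz c hmu a b hk j (.some _ 0 hns) w hw0 (fun σ => ?_)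
    (algebraMap k L z * κ) ?_⟩
  · obtain ⟨hn3, h4⟩ := add_tq hA hns hX0
    have h1 : Affine.Point.map (W' := cs d)
        ((σ : AlgebraicClosure L →ₐ[L] AlgebraicClosure L).restrictScalars k) (.some _ 0 hns) =
        Affine.Point.some (σ ((w - 2) * algebraMap k (AlgebraicClosure L) d)) (σ 0) (by
          exact (Affine.baseChange_nonsingular (cs d)
            ((σ : AlgebraicClosure L →ₐ[L] AlgebraicClosure L).restrictScalars k).injective
              _ 0).2 hns) := rfl
    have h2 : σ w = w ∨ σ w = -w := by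
      refine sq_eq_sq_iff_eq_or_eq_neg.1 ?_
      rw [← map_pow, hw]
      exact map_ofNat σ 2
    have h3 : σ ((w - 2) * algebraMap k (AlgebraicClosure L) d) =
        (σ w - 2) * algebraMap k (AlgebraicClosure L) d := by
      rw [map_mul, map_sub, map_ofNat, hσd]
    rcases h2 with h2 | h2
    · refine ⟨0, _root_.map_zero _, h1.trans ?_, by rw [ch_zero, one_mul, h2]⟩
      rw [add_zero]
      exact cvs_congr (by rw [h3, h2]) (map_zero σ) _ _
    · refine ⟨tq hA, mu_tq hA, h1.trans ?_, by rw [ch_tq, h2, neg_one_mul]⟩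
      rw [h4]
      refine cvs_congr ?_ ?_ _ _
      · rw [h3, h2, eq_div_iff hX0]
        linear_combination (-(algebraMap k (AlgebraicClosure L) d) ^ 2) * hw
      · rw [map_zero, mul_zero, zero_div, neg_zero]
  · have hzA := (isS_bc hd hz L).hz
    have h5 : algebraMap k L a = -(κ * κ) := by
      rw [← hκ, map_neg, neg_neg]
    rw [mul_pow, hw, ← map_pow, ← hk.sq, hja, h5, ← map_pow, mul_pow, hzA, ← map_ofNat
      (algebraMap L (AlgebraicClosure L)) 2, ← map_mul]
    congr 1
    ring

end

end

/-! ### the local condition -/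

section

variable {N : Type*} [Field N] [NumberField N] {d z : N} (hd : d ≠ 0) (hz : z ^ 2 = -2)

/-- an element of the completion near `1` has a square root near `1` -/
theorem sqrt_near (v : HeightOneSpectrum (𝓞 N)) (t : v.adicCompletion N) (ht : Valued.v t < 1) :
    ∃ s : v.adicCompletion N, Valued.v s = Valued.v t ∧ (1 + 2 * s) ^ 2 = 1 + 4 * t := by
  obtain ⟨s, hs1, hs⟩ := Pool.Agent.Lib.MP_1a91b9_ntT.S9.hensel_small v (-t) 1 1 0 0
    (by rw [Valuation.map_neg]; exact ht) (map_one _) (by rw [map_one]) (by rw [map_zero]; exact zero_le)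
    (by rw [map_zero]; exact zero_le)
  refine ⟨s, ?_, by linear_combination 4 * hs⟩
  have h1 : Valued.v (1 + s) = (1 : ℤᵐ⁰) := Valuation.map_one_add_of_lt _ hs1
  have h2 : t = s * (1 + s) := by linear_combination -hs
  rw [h2, map_mul, h1, mul_one]

/-- the local condition makes the cocycle locally trivial -/
theorem trivS_of_gloc (c : Gal N → Pts (cs d) (AlgebraicClosure N))
    (hmu : ∀ σ, mu (isS_bc hd hz (AlgebraicClosure N)) (c σ) = 0) (a : N)
    (b : AlgebraicClosure N) (hk : KD c a b) (v : HeightOneSpectrum (𝓞 N))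
    (h : GLocS (v.valuation N) d a) : c ∈ trivOver (cs d) (v.adicCompletion N) := by
  have : CharZero (v.adicCompletion N) :=
    charZero_of_injective_algebraMap (algebraMap N (v.adicCompletion N)).injective
  have hval : ∀ x : N, Valued.v (algebraMap N (v.adicCompletion N) x) = v.valuation N x :=
    fun x => HeightOneSpectrum.valuedAdicCompletion_eq_valuation' v x
  have hint : ∀ n : ℕ, v.valuation N (n : N) ≤ 1 := by
    intro n
    have h5 := HeightOneSpectrum.valuation_le_one (K := N) v (n : 𝓞 N)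
    have h6 : algebraMap (𝓞 N) N (n : 𝓞 N) = n := map_natCast _ n
    exact h6 ▸ h5
  rcases h with h | h | ⟨w, hw0, hw, h⟩ | ⟨x, hx0, hx, h⟩
  · exact trivS_of_sq hd hz c hmu a b hk (isSquare_of_Sq v _ h)
  · exact trivS_of_tq hd hz c hmu a b hk (isSquare_of_Sq v _ h)
  · -- a point of order two
    have h40 : v.valuation N 4 ≠ 0 := (Valuation.ne_zero_iff _).2 (by norm_num)
    have h20 : v.valuation N 2 ≠ 0 := (Valuation.ne_zero_iff _).2 (by norm_num)
    have h21 : v.valuation N 2 ≤ 1 := by exact_mod_cast hint 2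
    have h41 : v.valuation N 4 ≤ 1 := by exact_mod_cast hint 4
    have h42 : v.valuation N 4 ≤ v.valuation N 2 := by
      have e : (4 : N) = 2 * 2 := by norm_num
      rw [e, map_mul]
      exact mul_le_of_le_one_right' h21
    have h16 : v.valuation N 16 = v.valuation N 4 * v.valuation N 4 := by
      rw [← map_mul]
      norm_num
    -- `w ^ 2 / 2 = 1 + 4 t`
    obtain ⟨t, ht⟩ : ∃ t : N, t = (w ^ 2 / 2 - 1) / 4 := ⟨_, rfl⟩
    have ht4 : v.valuation N t < v.valuation N 4 := by
      rw [ht, map_div₀, div_lt_iff₀ (zero_lt_iff.2 h40), ← h16]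
      exact hw
    have htw : w ^ 2 = 2 * (1 + 4 * t) := by
      rw [ht]
      ring
    have ht1 : v.valuation N t < 1 := ht4.trans_le h41
    have h4t : v.valuation N (1 + 4 * t) = 1 := by
      refine Valuation.map_one_add_of_lt _ ?_
      rw [map_mul, mul_comm]
      exact mul_lt_one_of_lt_of_le ht1 h41
    have h4t' : v.valuation N (1 - 4 * t) = 1 := by
      have e : 1 - 4 * t = 1 + -(4 * t) := by ring
      rw [e]
      refine Valuation.map_one_add_of_lt _ ?_
      rw [Valuation.map_neg, map_mul, mul_comm]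
      exact mul_lt_one_of_lt_of_le ht1 h41
    have hw1 : v.valuation N w ≤ 1 := by
      have h5 : v.valuation N w ^ 2 ≤ 1 := by
        rw [← map_pow, htw, map_mul, h4t, mul_one]
        exact h21
      exact (pow_le_one_iff_of_nonneg zero_le two_ne_zero).1 h5
    have h4t0 : 1 - 4 * t ≠ 0 := by
      intro h0
      rw [h0, map_zero] at h4t'
      exact zero_ne_one h4t'
    -- `w / (w - 2)` is integral
    have hq : v.valuation N (w / (w - 2)) ≤ 1 := by
      have e : w / (w - 2) = -(1 + 4 * t + w) / (1 - 4 * t) := by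
        rw [div_eq_div_iff hw0 h4t0]
        linear_combination (1 : N) * htw
      rw [e, map_div₀, h4t', div_one, Valuation.map_neg]
      exact Valuation.map_add_le _ h4t.le hw1
    obtain ⟨s, hs, hs2⟩ := sqrt_near v (algebraMap N (v.adicCompletion N) t)
      (by rw [hval]; exact ht1)
    have h1s : Valued.v (1 + 2 * s) = (1 : ℤᵐ⁰) := by
      refine Valuation.map_one_add_of_lt _ ?_
      have h2v : Valued.v (2 : v.adicCompletion N) = v.valuation N 2 := by
        rw [← hval 2, map_ofNat (algebraMap N (v.adicCompletion N)) 2]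
      rw [map_mul, h2v, hs, hval, mul_comm]
      exact mul_lt_one_of_lt_of_le ht1 h21
    have h1s0 : 1 + 2 * s ≠ 0 := by
      intro h0
      rw [h0, map_zero] at h1s
      exact zero_ne_one h1s
    obtain ⟨W', hW'⟩ : ∃ W' : v.adicCompletion N, W' = algebraMap N (v.adicCompletion N) w := ⟨_, rfl⟩
    have hWw : W' ^ 2 = 2 * (1 + 4 * algebraMap N (v.adicCompletion N) t) := by
      rw [hW', ← map_pow, htw, map_mul, map_add, map_mul, map_one, map_ofNat, map_ofNat]
    have hW2 : W' - 2 ≠ 0 := by
      intro h0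
      apply hw0
      apply (algebraMap N (v.adicCompletion N)).injective
      rw [map_sub, map_ofNat, map_zero, ← hW', h0]
    -- the exact square root of `2`
    obtain ⟨r, hr⟩ : ∃ r : v.adicCompletion N, r = W' / (1 + 2 * s) := ⟨_, rfl⟩
    have hr2 : r ^ 2 = 2 := by
      rw [hr, div_pow, hs2, hWw, mul_div_assoc, div_self, mul_one]
      rw [← hs2]
      exact pow_ne_zero 2 h1s0
    -- `(r - 2) / (w - 2) = 1 + 4 u`
    obtain ⟨u, hu⟩ : ∃ u : v.adicCompletion N, u = -(s / 2) * (W' / (W' - 2)) / (1 + 2 * s) := ⟨_, rfl⟩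
    have hu1 : Valued.v u < (1 : ℤᵐ⁰) := by
      have h2v : Valued.v (2 : v.adicCompletion N) = v.valuation N 2 := by
        rw [← hval 2, map_ofNat (algebraMap N (v.adicCompletion N)) 2]
      have h5 : Valued.v (W' / (W' - 2)) ≤ (1 : ℤᵐ⁰) := by
        have e : W' / (W' - 2) = algebraMap N (v.adicCompletion N) (w / (w - 2)) := by
          rw [map_div₀, map_sub, map_ofNat, hW']
        rw [e, hval]
        exact hq
      rw [hu, map_div₀, h1s, div_one, map_mul, Valuation.map_neg]
      refine mul_lt_one_of_lt_of_le ?_ h5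
      rw [map_div₀, h2v, hs, hval, div_lt_one₀ (zero_lt_iff.2 h20)]
      exact ht4.trans_le h42
    obtain ⟨g, -, hg⟩ := sqrt_near v u hu1
    have h22 : (2 : v.adicCompletion N) ≠ 0 := two_ne_zero
    have hru : r - 2 = (W' - 2) * (1 + 4 * u) := by
      rw [hr, hu]
      field_simp
      ring
    have hr0 : r - 2 ≠ 0 := by
      intro h0
      rw [sub_eq_zero.1 h0] at hr2
      norm_num at hr2
    obtain ⟨κ, hκ⟩ := isSquare_of_Sq v _ h
    have hd' : algebraMap N (v.adicCompletion N) d ≠ 0 := (map_ne_zero _).2 hd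
    refine trivS_of_pt hd hz c hmu a b hk ((r - 2) * algebraMap N (v.adicCompletion N) d) 0 ?_
      (mul_ne_zero hr0 hd') ⟨κ * (1 + 2 * g), ?_⟩
    · linear_combination (-(r - 2) * algebraMap N (v.adicCompletion N) d ^ 3) * hr2
    · rw [hru, ← hg]
      rw [map_mul, map_mul, map_sub, map_ofNat, ← hW'] at hκ
      linear_combination ((1 + 2 * g) ^ 2) * hκ
  · obtain ⟨y, hy⟩ := isSquare_of_Sq v _ hx
    refine trivS_of_pt hd hz c hmu a b hk (algebraMap N (v.adicCompletion N) x) y ?_
      ((map_ne_zero _).2 hx0) ?_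
    · have h1 : algebraMap N (v.adicCompletion N) (x * (x ^ 2 + 4 * d * x + 2 * d ^ 2)) = y * y := hy
      simp only [map_pow, map_add, map_mul, map_ofNat] at h1
      linear_combination -h1
    · rw [← map_mul]
      exact isSquare_of_Sq v _ h

/-! ### the converse -/

theorem card_ker_muV {F : Type*} [Field F] [CharZero F] {W : Affine F} {z d : F} (h : IsS W z d) :
    Nat.card (mu h).ker = 2 := by
  have hs : ((mu h).ker : Set W.Point) = {0, tq h} := by
    ext P
    simp only [SetLike.mem_coe, AddMonoidHom.mem_ker, Set.mem_insert_iff, Set.mem_singleton_iff]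
    constructor
    · exact mu_ker_all h P
    · rintro (rfl | rfl)
      · exact _root_.map_zero _
      · exact mu_tq h
  have h1 : Nat.card (mu h).ker = ((mu h).ker : Set W.Point).ncard := rfl
  rw [h1, hs, Set.ncard_pair (tq_ne h).symm]

/-- a finite group of points: every point is `mu Q` or `P₀ + mu Q` -/
theorem half_mu {F : Type*} [Field F] [CharZero F] {W : Affine F} {z d : F} (h : IsS W z d)
    (hfin : Finite W.Point) (P₀ : W.Point) (h₀ : P₀ ∉ (mu h).range) (P : W.Point) :
    ∃ T Q : W.Point, (T = 0 ∨ T = P₀) ∧ P = T + mu h Q := by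
  have hidx : (mu h).range.index = 2 := by
    have h1 := (mu h).ker.card_mul_index
    have h2 : (mu h).ker.index = Nat.card (mu h).range := AddSubgroup.index_ker (mu h)
    have h3 := (mu h).range.card_mul_index
    rw [card_ker_muV h, h2, ← h3, mul_comm] at h1
    have h4 : 0 < Nat.card (mu h).range := Nat.card_pos
    exact (Nat.eq_of_mul_eq_mul_left h4 h1).symm
  by_cases hP : P ∈ (mu h).range
  · obtain ⟨Q, rfl⟩ := hP
    exact ⟨0, Q, Or.inl rfl, (zero_add _).symm⟩
  · have h1 : P + -P₀ ∈ (mu h).range := by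
      rw [AddSubgroup.add_mem_iff_of_index_two hidx]
      exact ⟨fun h => absurd h hP, fun h => absurd (neg_mem_iff.1 h) h₀⟩
    obtain ⟨Q, hQ⟩ := h1
    refine ⟨P₀, Q, Or.inr rfl, ?_⟩
    rw [hQ]
    abel

theorem tq_notMemV {F : Type*} [Field F] [CharZero F] {W : Affine F} {z d : F} (h : IsS W z d)
    (hn2 : ¬ IsSquare (2 : F)) : tq h ∉ (mu h).range := by
  rintro ⟨Q, hQ⟩
  obtain ⟨x, y, hn, rfl, hx0⟩ := mu_ne_cases h Q (by
    rw [hQ]
    exact tq_ne h)
  obtain ⟨w, hw, -⟩ := root_of_mu h hn hx0 _ hQ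
  exact hn2 ⟨w, by rw [← hw, sq]⟩

section

variable (c : Gal N → Pts (cs d) (AlgebraicClosure N))
  (hmu : ∀ σ, mu (isS_bc hd hz (AlgebraicClosure N)) (c σ) = 0) (a : N)
  (b : AlgebraicClosure N) (hk : KD c a b) (R : Pts (cs d) (AlgebraicClosure N))
  (hR : ∀ σ, c σ = act (cs d) σ R - R)

include hk hR

/-- the coboundary of a point of the kernel -/
theorem sq_of_mu_zero (h : mu (isS_bc hd hz (AlgebraicClosure N)) R = 0) : IsSquare a := by
  have hfix : ∀ σ : Gal N, σ b = b := by
    intro σ
    have h1 : c σ = 0 := by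
      rw [hR σ, act_ker hd hz σ R h, sub_self]
    rw [hk.act σ, h1, ch_zero, one_mul]
  obtain ⟨β, hβ⟩ := Pool.Agent.Lib.MP_1a91b9_ntT.S9.fixed_elem (k := N) b hfix
  refine ⟨β, (algebraMap N (AlgebraicClosure N)).injective ?_⟩
  rw [map_mul, hβ, hk.sq, sq]

include hmu

/-- the coboundary of a point `R` with `mu R = (0, 0)` -/
theorem sq_of_mu_tq (h : mu (isS_bc hd hz (AlgebraicClosure N)) R =
    tq (isS_bc hd hz (AlgebraicClosure N))) : IsSquare (-a) := by
  set hA := isS_bc hd hz (AlgebraicClosure N) with hAdef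
  obtain ⟨X, Y, hXY, hRX, hX0⟩ := mu_ne_cases hA R (by
    rw [h]
    exact tq_ne hA)
  subst hRX
  obtain ⟨w, hw, hXw, hY⟩ := root_of_mu hA hXY hX0 _ h
  subst hY
  have hdA := hA.hd
  have hw2 : w - 2 ≠ 0 := by
    intro h0
    rw [h0, zero_mul] at hXw
    exact hX0 hXw
  have hfix : ∀ σ : Gal N, σ (b * w) = b * w := by
    intro σ
    have h5 : act (cs d) σ (.some X 0 hXY) = Affine.Point.some (σ X) (σ 0) (by
      exact (Affine.baseChange_nonsingular (cs d)
        (σ : AlgebraicClosure N →ₐ[N] AlgebraicClosure N).injective X 0).2 hXY) := rfl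
    have hσd : σ (algebraMap N (AlgebraicClosure N) d) = algebraMap N (AlgebraicClosure N) d :=
      AlgEquiv.commutes σ d
    have hσX : σ X = (σ w - 2) * algebraMap N (AlgebraicClosure N) d := by
      rw [hXw, map_mul, map_sub, map_ofNat, hσd]
    have h6 := hR σ
    rw [eq_sub_iff_add_eq, h5] at h6
    rw [map_mul, hk.act σ]
    rcases mu_ker_all hA (c σ) (hmu σ) with h7 | h7
    · rw [h7, zero_add] at h6
      have h8 := (Affine.Point.some.inj h6).1
      rw [hσX, hXw] at h8
      have h9 : σ w = w := (sub_left_injective (mul_right_cancel₀ hdA h8)).symm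
      rw [h7, ch_zero, one_mul, h9]
    · obtain ⟨hn3, h8⟩ := add_tq hA hXY hX0
      rw [h7, add_comm, h8] at h6
      have h9 := (Affine.Point.some.inj h6).1
      rw [div_eq_iff hX0, hσX, hXw] at h9
      have h10 : (σ w + w) * (w - 2) = 0 := by
        refine mul_right_cancel₀ (pow_ne_zero 2 hdA) ?_
        linear_combination -h9 + (algebraMap N (AlgebraicClosure N) d) ^ 2 * hw
      have h11 : σ w = -w := eq_neg_of_add_eq_zero_left ((mul_eq_zero.1 h10).resolve_right hw2)
      rw [h7, ch_tq, h11]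
      ring
  obtain ⟨β, hβ⟩ := Pool.Agent.Lib.MP_1a91b9_ntT.S9.fixed_elem (k := N) _ hfix
  have hz0 : z ≠ 0 := by
    rintro rfl
    norm_num at hz
  have hβ2 : β ^ 2 = 2 * a := by
    apply (algebraMap N (AlgebraicClosure N)).injective
    rw [map_pow, hβ, mul_pow, hw, ← hk.sq, map_mul, map_ofNat]
    ring
  refine ⟨β / z, ?_⟩
  rw [div_mul_div_comm, ← sq, ← sq, hβ2, hz]
  ring

end

include hd hz in
/-- the common part of the two converses -/
theorem conv_core (hinf : ∀ v : InfinitePlace N, v.IsComplex) (a : N)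
    (ha : a ≠ 0) (hloc : ∀ v : HeightOneSpectrum (𝓞 N), GLocS (v.valuation N) d a)
    (hfin : Finite (cs d).toAffine.Point) (hcard : Nat.card (ShaP 2 (cs d)) = 1)
    (P₀ : Pts (cs d) N) (h₀ : P₀ ∉ (mu (isS_bc hd hz N)).range) :
    ∃ (c : Gal N → Pts (cs d) (AlgebraicClosure N)) (b : AlgebraicClosure N)
      (R : Pts (cs d) (AlgebraicClosure N)),
      (∀ σ, mu (isS_bc hd hz (AlgebraicClosure N)) (c σ) = 0) ∧ KD (d := d) c a b ∧
      (∀ σ, c σ = act (cs d) σ R - R) ∧
      (mu (isS_bc hd hz (AlgebraicClosure N)) R = 0 ∨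
        mu (isS_bc hd hz (AlgebraicClosure N)) R = up (cs d) N (AlgebraicClosure N) P₀) := by
  obtain ⟨c, b, hc, hmu, hk⟩ := exists_cocS hd hz a ha
  set hA := isS_bc hd hz (AlgebraicClosure N) with hAdef
  have hc2 : ∀ σ, c σ + c σ = 0 := by
    intro σ
    rcases mu_ker_all hA (c σ) (hmu σ) with h | h
    · rw [h, add_zero]
    · rw [h, tq_add_self]
  have hsha : c ∈ shaCoc (cs d) := by
    refine ⟨⟨hc, ?_⟩, ?_⟩
    · exact AddSubgroup.mem_iInf.2 fun v => trivS_of_gloc hd hz c hmu a b hk v (hloc v)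
    · refine AddSubgroup.mem_iInf.2 fun v => ?_
      have : CharZero v.Completion :=
        charZero_of_injective_algebraMap (algebraMap N v.Completion).injective
      refine trivS_of_sq hd hz c hmu a b hk ?_
      let e := InfinitePlace.Completion.ringEquivComplexOfIsComplex (hinf v)
      obtain ⟨y, hy⟩ := IsAlgClosed.exists_pow_nat_eq (e (algebraMap N v.Completion a))
        (n := 2) (by norm_num)
      refine ⟨e.symm y, e.injective ?_⟩
      rw [map_mul, e.apply_symm_apply, ← hy, sq]
  -- the class is zero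
  have hcob : c ∈ cob (cs d) := by
    have hx : ∀ x : AddCommGroup.primaryComponent (Sha (cs d)) 2, x = 0 := by
      intro x
      have h1 := (Nat.card_eq_one_iff_unique.1 hcard).1
      exact Subsingleton.elim _ _
    let y : Sha (cs d) := QuotientAddGroup.mk (⟨c, hsha⟩ : shaCoc (cs d))
    have hy : 2 ^ 1 • y = 0 := by
      rw [pow_one, two_smul]
      show (QuotientAddGroup.mk ((⟨c, hsha⟩ : shaCoc (cs d)) + ⟨c, hsha⟩) : Sha (cs d)) = 0
      rw [QuotientAddGroup.eq_zero_iff, AddSubgroup.mem_addSubgroupOf]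
      refine ⟨0, fun σ => ?_⟩
      rw [_root_.map_zero, sub_zero]
      exact hc2 σ
    have h3 := congrArg Subtype.val (hx ⟨y, 1, hy⟩)
    have h4 : (QuotientAddGroup.mk (⟨c, hsha⟩ : shaCoc (cs d)) : Sha (cs d)) = 0 := h3
    rw [QuotientAddGroup.eq_zero_iff, AddSubgroup.mem_addSubgroupOf] at h4
    exact h4
  obtain ⟨R, hR⟩ := hcob
  have hR' : ∀ σ, c σ = act (cs d) σ R - R := hR
  -- the point `mu R` comes from `N`
  obtain ⟨P, hP⟩ := Pool.Agent.Lib.MP_1a91b9_ntT.S9.fixed_pt (L := N) (cs d) (mu hA R) fun σ => by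
    have h1 : Affine.Point.map ((σ : AlgebraicClosure N →ₐ[N] AlgebraicClosure N).restrictScalars N)
        (mu hA R) = act (cs d) σ (mu hA R) := rfl
    rw [h1, act_mu hd hz]
    have h3 := hmu σ
    rw [hR' σ, _root_.map_sub, sub_eq_zero] at h3
    exact h3
  have h0 := isS_bc hd hz N
  have hfin' : Finite (Affine.baseChange (cs d) N).Point := by
    have e : (Affine.baseChange (cs d) N) = (cs d).toAffine := h0.eq
    rw [e]
    exact hfin
  obtain ⟨T, Q, hT, hPQ⟩ := half_mu h0 hfin' P₀ h₀ P
  have hup : ∀ (σ : Gal N) (P : Pts (cs d) N),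
      act (cs d) σ (up (cs d) N (AlgebraicClosure N) P) = up (cs d) N (AlgebraicClosure N) P := by
    intro σ P
    show Affine.Point.map _ (Affine.Point.map _ _) = _
    rw [Affine.Point.map_map]
    have hcomp : (σ : AlgebraicClosure N →ₐ[N] AlgebraicClosure N).comp
        (IsScalarTower.toAlgHom N N (AlgebraicClosure N)) =
        IsScalarTower.toAlgHom N N (AlgebraicClosure N) := AlgHom.ext fun x => σ.commutes x
    rw [hcomp]
  have hmuup : ∀ P : Pts (cs d) N, up (cs d) N (AlgebraicClosure N) (mu h0 P) =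
      mu hA (up (cs d) N (AlgebraicClosure N) P) := fun P =>
    mu_map hd hz (IsScalarTower.toAlgHom N N (AlgebraicClosure N)) P
  refine ⟨c, b, R - up (cs d) N (AlgebraicClosure N) Q, hmu, hk, fun σ => ?_, ?_⟩
  · rw [_root_.map_sub, hup, hR' σ]
    abel
  · have hR2 : mu hA (R - up (cs d) N (AlgebraicClosure N) Q) =
        up (cs d) N (AlgebraicClosure N) T := by
      rw [_root_.map_sub, ← hmuup, ← hP, hPQ, _root_.map_add]
      abel
    rcases hT with rfl | rfl
    · left
      rw [hR2, _root_.map_zero]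
    · right
      exact hR2

include hd hz in
/-- **The converse of the descent by `√-2`.** `a` is a Selmer element, and neither `a` nor `-a` is a
square; `2` is not a square. If `W(N)` is finite, the 2-primary part of the
Tate-Shafarevich group of `W : y² = x³ + 4 d x² + 2 d² x` is not trivial. -/
theorem conv_selS (hinf : ∀ v : InfinitePlace N, v.IsComplex) (hn2 : ¬ IsSquare (2 : N)) (a : N)
    (ha : a ≠ 0) (hloc : ∀ v : HeightOneSpectrum (𝓞 N), GLocS (v.valuation N) d a)
    (hna : ¬ IsSquare a) (hnad : ¬ IsSquare (-a)) {W : WeierstrassCurve N} (hW : W = cs d)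
    (hfin : Finite W.toAffine.Point) : Nat.card (ShaP 2 W) ≠ 1 := by
  subst hW
  intro hcard
  obtain ⟨c, b, R, hmu, hk, hR, h1 | h1⟩ := conv_core hd hz hinf a ha hloc hfin hcard
    (tq (isS_bc hd hz N)) (tq_notMemV (isS_bc hd hz N) hn2)
  · exact hna (sq_of_mu_zero hd hz c a b hk R hR h1)
  · refine hnad (sq_of_mu_tq hd hz c hmu a b hk R hR ?_)
    rw [h1]
    exact tq_map hd hz (IsScalarTower.toAlgHom N N (AlgebraicClosure N))

end

end Pool.Agent.Lib.MP_1a91b9_ntW.C
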